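import Pool.Agent.H38.MT.Defs
import Pool.Agent.H48.KV.UbE

/-!
# [H38 MT BA] elementary facts on ramification and types, 60-100 lines. File Pool/Agent/H38/MT/BA.lean

`K` any number field in `QBar`, no root of unity needed. `χ` of finite type.
* `ba_fin`: only finitely many primes `l` are ramified. Proof: see how `ub_fin` (`H48/KV/UbE.lean`) or `uinr_fin` (`H63/BU`) or `ram_finite` proves it (finite type: `χ` is trivial on the fixing subgroup of a finite `E / K`; the inertia groups of the primes unramified in the normal closure of `E` are contained in its fixing subgroup; search the library for such a lemma on `FT` and `inertia`; with `D`, `L` as there one gets it outside `D.S0`, and `D.S0` is finite).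
* `ba_mem`: membership in `rf`. `ba_sd`: enlarging `S`. `ba_in`: the inertia group is contained in the decomposition group (`σ x - x ∈ P`, so `σ x ∈ P ↔ x ∈ P`). `ba_dj`: `rf` is disjoint from `q` if `χ` is trivial on the decomposition groups at `l ∈ q`.
* `ba_ts`, `ba_tr`: types determine the splitting and the ramification at the primes of `S`.
* `ba_ch`: a homomorphism to a group of order 3 is surjective iff it is not trivial.
-/

set_option autoImplicit false

open scoped NumberField Classical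
open IsDedekindDomain H38.ML H63.MA H38.BB H48.KV H48.T3

noncomputable section

namespace H38.MT

variable {K : IntermediateField ℚ QBar} [NumberField K]

theorem ba_fin (Q : DP K QBar) (S : Finset (Pl K))
    {χ : Gal(QBar/K) →* Multiplicative (ZMod 3)} (hχ : FT χ) : (RC Q S χ).Finite := by
  refine (H38.WM.rmF Q χ hχ).subset ?_
  rintro l ⟨-, h⟩
  exact h

theorem ba_mem (Q : DP K QBar) (S : Finset (Pl K))
    {χ : Gal(QBar/K) →* Multiplicative (ZMod 3)} (hχ : FT χ) (l : Pl K) :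
    l ∈ rf Q S χ ↔ l ∉ S ∧ ∃ σ ∈ (Q.P l).inertia Gal(QBar/K), χ σ ≠ 1 := by
  unfold rf
  rw [dif_pos (ba_fin Q S hχ), Set.Finite.mem_toFinset]
  exact Iff.rfl

theorem ba_sd (Q : DP K QBar) {S S' : Finset (Pl K)} (h : S ⊆ S')
    {χ : Gal(QBar/K) →* Multiplicative (ZMod 3)} (hχ : FT χ) :
    rf Q S' χ = rf Q S χ \ S' := by
  ext l
  rw [Finset.mem_sdiff, ba_mem Q S' hχ, ba_mem Q S hχ]
  constructor
  · rintro ⟨h1, h2⟩
    exact ⟨⟨fun h3 => h1 (h h3), h2⟩, h1⟩
  · rintro ⟨⟨-, h2⟩, h1⟩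
    exact ⟨h1, h2⟩

private theorem ba_id (P : Ideal (𝓞 QBar)) (σ : Gal(QBar/K)) (hσ : σ ∈ P.inertia Gal(QBar/K)) :
    σ ∈ dec (K := K) P := by
  intro x
  have h1 : σ • x - x ∈ P := hσ x
  constructor
  · intro h2
    have h3 := P.sub_mem h2 h1
    rwa [sub_sub_cancel] at h3
  · intro h2
    have h3 := P.add_mem h1 h2
    rwa [sub_add_cancel] at h3

theorem ba_in (Q : DP K QBar) {χ : Gal(QBar/K) →* Multiplicative (ZMod 3)} {l : Pl K}
    (h : Spt Q χ l) : ∀ σ ∈ (Q.P l).inertia Gal(QBar/K), χ σ = 1 := by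
  intro σ hσ
  exact h σ (ba_id (Q.P l) σ hσ)

theorem ba_dj (Q : DP K QBar) {S : Finset (Pl K)}
    {χ : Gal(QBar/K) →* Multiplicative (ZMod 3)} (hχ : FT χ) {q : Finset (Pl K)}
    (h : ∀ l ∈ q, l ∉ S ∧ Spt Q χ l) : Disjoint (rf Q S χ) q := by
  rw [Finset.disjoint_left]
  intro l hl hl'
  obtain ⟨-, σ, hσ, h1⟩ := (ba_mem Q S hχ l).1 hl
  exact h1 (ba_in Q (h l hl').2 σ hσ)

theorem ba_ts (Q : DP K QBar) {S : Finset (Pl K)}
    {χ χ' : Gal(QBar/K) →* Multiplicative (ZMod 3)} (h : Teq S Q χ χ') {l : Pl K} (hl : l ∈ S) :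
    Spt Q χ l ↔ Spt Q χ' l := by
  constructor
  · intro h1 σ hσ
    rw [← h l hl σ hσ]
    exact h1 σ hσ
  · intro h1 σ hσ
    rw [h l hl σ hσ]
    exact h1 σ hσ

theorem ba_tr (Q : DP K QBar) {S S' : Finset (Pl K)}
    {χ χ' : Gal(QBar/K) →* Multiplicative (ZMod 3)} (hχ : FT χ) (hχ' : FT χ')
    (h : Teq S' Q χ χ') : rf Q S χ ∩ S' = rf Q S χ' ∩ S' := by
  ext l
  rw [Finset.mem_inter, Finset.mem_inter, ba_mem Q S hχ, ba_mem Q S hχ']
  constructor
  · rintro ⟨⟨h1, σ, hσ, h2⟩, h3⟩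
    refine ⟨⟨h1, σ, hσ, ?_⟩, h3⟩
    rwa [← h l h3 σ (ba_id (Q.P l) σ hσ)]
  · rintro ⟨⟨h1, σ, hσ, h2⟩, h3⟩
    refine ⟨⟨h1, σ, hσ, ?_⟩, h3⟩
    rwa [h l h3 σ (ba_id (Q.P l) σ hσ)]

private theorem ba_z3 : ∀ a b : ZMod 3, a ≠ 0 → b = 0 ∨ b = a ∨ b = a + a := by
  decide

theorem ba_ch (χ : Gal(QBar/K) →* Multiplicative (ZMod 3)) : χ ∈ Ch K ↔ FT χ ∧ χ ≠ 1 := by
  constructor
  · rintro ⟨h1, h2⟩
    refine ⟨h1, ?_⟩
    rintro rfl
    obtain ⟨σ, hσ⟩ := h2 (Multiplicative.ofAdd 1)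
    rw [MonoidHom.one_apply] at hσ
    exact absurd (congrArg Multiplicative.toAdd hσ) (by decide)
  · rintro ⟨h1, h2⟩
    refine ⟨h1, ?_⟩
    obtain ⟨σ, hσ⟩ : ∃ σ, χ σ ≠ 1 := by
      by_contra h3
      push Not at h3
      exact h2 (MonoidHom.ext h3)
    intro g
    have h4 : Multiplicative.toAdd (χ σ) ≠ 0 := fun h => hσ h
    rcases ba_z3 (Multiplicative.toAdd (χ σ)) (Multiplicative.toAdd g) h4 with h5 | h5 | h5
    · exact ⟨1, by rw [map_one]; exact h5.symm⟩
    · exact ⟨σ, h5.symm⟩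
    · exact ⟨σ * σ, by rw [map_mul]; exact h5.symm⟩

end H38.MT
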