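import Pool.Agent.H48.KV.SDef
import Pool.Agent.H38.AS.SLim
import Pool.Agent.H38.BB.CUb
import Pool.Agent.H63.MC.CTyp

/-!
# H38/MT: the main term of T3 (MP_b39724_nt), chapter (III). Definitions (complete)

`K` contains a primitive cube root of unity `ω`; `D : RD0 K 3 ω`; `S` a finite set of primes of `K`.
* `rf Q S χ`: the finite set of the primes outside `S` at which `χ` is ramified. `Spt Q χ l`: `χ` is trivial on the decomposition group at `l`.
* `Ch K`: the surjective characters of order 3 of finite type. `SQ`, `mq`, `cf`, `CX`: the interface of the chapter, see `FN.lean`.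
* `PR Q S X`: the pairs `(χ, q)`, `χ` surjective of finite type, `q` a finite set of primes outside `S` with `Spt Q χ l` for all `l ∈ q`, and `nr (rf Q S χ) * nr q ≤ X`.
* `ws A = ∑_{(χ, q) ∈ A} 3 ^ #q`.
* `xx D u a b = u ∏_{v ∈ a} pi v ∏_{v ∈ b} (pi v)^2`, `ch D u a b` its Kummer character. `Ad D a b`: `a, b` disjoint sets of primes outside `S0`.
* `UR D U`: `U` is a set of representatives of the `S0`-units modulo cubes.
* `c3 : CR 3 1 3`: the class data `x 0 = 0, Θ 0 = ⊤`, `x 1 = 1`, `x 2 = 2`, `Θ 1 = Θ 2 = ⊥`.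
* `hh D Q χ₂ u q = 1` if the characters `ch D u a b` with classes `qf a = q 1`, `qf b = q 2` have the type of `χ₂` at `S0`, and `0` otherwise.
* `GP Q S χ₂ X`: the pairs in `PR Q S X` with the type of `χ₂` at `S`, all of whose primes outside `S` are of prime norm.
* `PG Q S S' χ₁ X`: the pairs in `PR Q S X` with the type of `χ₁` at `S`, all of whose primes outside `S'` are of prime norm.
-/

set_option autoImplicit false

namespace H48.T3

end H48.T3

open scoped NumberField Classical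
open IsDedekindDomain H38.ML H63.MA H38.BB H48.KV Filter Topology

noncomputable section

namespace H38.MT

variable {K : IntermediateField ℚ QBar} [NumberField K]

/-- the surjective characters of order 3 of finite type -/
def Ch (K : IntermediateField ℚ QBar) [NumberField K] :
    Set (Gal(QBar/K) →* Multiplicative (ZMod 3)) :=
  {χ | FT χ ∧ Function.Surjective χ}

/-- the finite set of the primes outside `S` at which `χ` is ramified -/
def rf (Q : DP K QBar) (S : Finset (Pl K)) (χ : Gal(QBar/K) →* Multiplicative (ZMod 3)) :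
    Finset (Pl K) :=
  if h : (RC Q S χ).Finite then h.toFinset else ∅

/-- `χ` is trivial on the decomposition group at `l` -/
def Spt (Q : DP K QBar) (χ : Gal(QBar/K) →* Multiplicative (ZMod 3)) (l : Pl K) : Prop :=
  ∀ σ ∈ dec (K := K) (Q.P l), χ σ = 1

/-- the finite sets of primes outside `S`, of norm at most `Y`, which split completely in the field of `χ` -/
def SQ (Q : DP K QBar) (S : Finset (Pl K)) (χ : Gal(QBar/K) →* Multiplicative (ZMod 3)) (Y : ℝ) :
    Finset (Finset (Pl K)) :=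
  (AF K Y).filter fun q => ∀ l ∈ q, l ∉ S ∧ Spt Q χ l

/-- the main term of one fibre -/
def mq (Q : DP K QBar) (S : Finset (Pl K)) (χ : Gal(QBar/K) →* Multiplicative (ZMod 3)) (Y : ℝ) :
    ℝ := ∑ q ∈ SQ Q S χ Y, (3 : ℝ) ^ q.card

/-- the product of the norms of the primes outside `S` at which `χ` is ramified -/
def cf (Q : DP K QBar) (S : Finset (Pl K)) (χ : Gal(QBar/K) →* Multiplicative (ZMod 3)) : ℝ :=
  nr (rf Q S χ)

/-- the surjective characters of finite type with the type of `χ₁` at `S` and `cf ≤ X` -/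
def CX (Q : DP K QBar) (S : Finset (Pl K)) (χ₁ : Gal(QBar/K) →* Multiplicative (ZMod 3)) (X : ℝ) :
    Set (Gal(QBar/K) →* Multiplicative (ZMod 3)) :=
  {χ | χ ∈ Ch K ∧ Teq S Q χ χ₁ ∧ cf Q S χ ≤ X}

/-- the pairs `(χ, q)` -/
def PR (Q : DP K QBar) (S : Finset (Pl K)) (X : ℝ) :
    Set ((Gal(QBar/K) →* Multiplicative (ZMod 3)) × Finset (Pl K)) :=
  {z | z.1 ∈ Ch K ∧ (∀ l ∈ z.2, l ∉ S ∧ Spt Q z.1 l) ∧ nr (rf Q S z.1) * nr z.2 ≤ X}

/-- the weighted number of pairs -/
def ws (A : Set ((Gal(QBar/K) →* Multiplicative (ZMod 3)) × Finset (Pl K))) : ℝ :=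
  ∑ᶠ z ∈ A, (3 : ℝ) ^ z.2.card

/-- the pairs with the type of `χ₂` at `S` and only primes of prime norm outside `S` -/
def GP (Q : DP K QBar) (S : Finset (Pl K)) (χ₂ : Gal(QBar/K) →* Multiplicative (ZMod 3)) (X : ℝ) :
    Set ((Gal(QBar/K) →* Multiplicative (ZMod 3)) × Finset (Pl K)) :=
  {z | z ∈ PR Q S X ∧ Teq S Q z.1 χ₂ ∧ ∀ l ∈ rf Q S z.1 ∪ z.2, (nm l).Prime}

/-- the pairs with the type of `χ₁` at `S` and only primes of prime norm outside `S'` -/
def PG (Q : DP K QBar) (S S' : Finset (Pl K)) (χ₁ : Gal(QBar/K) →* Multiplicative (ZMod 3))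
    (X : ℝ) : Set ((Gal(QBar/K) →* Multiplicative (ZMod 3)) × Finset (Pl K)) :=
  {z | z ∈ PR Q S X ∧ Teq S Q z.1 χ₁ ∧ ∀ l ∈ rf Q S z.1 ∪ z.2, l ∉ S' → (nm l).Prime}

section kum

variable {ω : K}

/-- the Kummer generator -/
def xx (D : RD0 K 3 ω) (u : Kˣ) (a b : Finset (Pl K)) : Kˣ :=
  u * ((∏ v ∈ a, D.pi v) * ∏ v ∈ b, D.pi v ^ 2)

/-- the character -/
def ch (D : RD0 K 3 ω) (u : Kˣ) (a b : Finset (Pl K)) :
    Gal(QBar/K) →* Multiplicative (ZMod 3) := kc 3 ω QBar (xx D u a b)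

/-- disjoint sets of primes outside `S0` -/
def Ad (D : RD0 K 3 ω) (a b : Finset (Pl K)) : Prop :=
  Disjoint a b ∧ (∀ v ∈ a, v ∉ D.S0) ∧ ∀ v ∈ b, v ∉ D.S0

/-- representatives of the `S0`-units modulo cubes -/
structure UR (D : RD0 K 3 ω) (U : Finset Kˣ) : Prop where
  tu : ∀ u ∈ U, TUnit D.S0 u
  ex : ∀ x, TUnit D.S0 x → ∃ u ∈ U, ∃ y : Kˣ, x = u * y ^ 3
  un : ∀ u ∈ U, ∀ u' ∈ U, ∀ y : Kˣ, u = u' * y ^ 3 → u = u'

theorem exists_UR (D : RD0 K 3 ω) : ∃ U : Finset Kˣ, UR D U := by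
  obtain ⟨U, h1, h2, h3⟩ := unit_reps2 (K := K) Nat.prime_three D.S0
  exact ⟨U, h1, h2, h3⟩

/-- the class function of a type -/
def hh (D : RD0 K 3 ω) (Q : DP K QBar) (χ₂ : Gal(QBar/K) →* Multiplicative (ZMod 3)) (u : Kˣ)
    (q : Fin 3 → Fin D.r → ZMod 3) : ℝ :=
  if ∃ a b, Ad D a b ∧ qf D a = q 1 ∧ qf D b = q 2 ∧ Teq D.S0 Q (ch D u a b) χ₂ then 1 else 0

end kum

/-- the class data -/
def c3 : CR 3 1 3 where
  x i := if i = 1 then (fun _ => 1) else if i = 2 then (fun _ => 2) else 0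
  Θ i := if i = 0 then ⊤ else ⊥
  self := by
    intro i θ hθ
    fin_cases i
    · simp [dt]
    · have h : θ = 0 := by simpa using hθ
      rw [h]
      simp [dt]
    · have h : θ = 0 := by simpa using hθ
      rw [h]
      simp [dt]

end H38.MT
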