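import Pool.Agent.H38.MT.Defs

/-!
# [H38 MT ES] sums over finite sets of primes of non-prime norm, 40-70 lines. File Pool/Agent/H38/MT/ES.lean

Proof. Let `W` be the union of the `E ∈ T` (a finite set of primes of non-prime norm). `∑_{E ∈ T} 5 ^ #E nr E ^ (-5/8) ≤ ∑_{E ⊆ W} ∏_{v ∈ E} 5 (nm v)^(-5/8) = ∏_{v ∈ W} (1 + 5 (nm v)^(-5/8)) ≤ exp(5 ∑_{v ∈ W} (nm v)^(-5/8))` (`Finset.prod_one_add` or `Finset.prod_add`, `Real.add_one_le_exp`, `Real.exp_sum`), and the sum over `W` is at most the sum of the series `deg_summable K (σ := 5/8)` (`H63/MA/PZb.lean`), `Summable.sum_le_tsum`.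
(`nr E ^ s = ∏_{v ∈ E} (nm v) ^ s`: `Real.finsetProd_rpow`.)
-/

set_option autoImplicit false

open scoped NumberField Classical
open IsDedekindDomain H63.MA

noncomputable section

namespace H38.MT

private theorem es_nn {K : Type} [Field K] [NumberField K] (v : Pl K) (s : ℝ) :
    0 ≤ (nm v : ℝ) ^ s := Real.rpow_nonneg (Nat.cast_nonneg _) s

theorem es (K : Type) [Field K] [NumberField K] :
    ∃ C : ℝ, 0 < C ∧ ∀ T : Finset (Finset (Pl K)), (∀ E ∈ T, ∀ l ∈ E, ¬ (nm l).Prime) →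
      ∑ E ∈ T, (5 : ℝ) ^ E.card * nr E ^ (-(5 / 8) : ℝ) ≤ C := by
  have hs := deg_summable K (σ := 5 / 8) (by norm_num)
  refine ⟨Real.exp (5 * ∑' v : Pl K, Set.indicator {v : Pl K | ¬ (nm v).Prime}
    (fun v => (nm v : ℝ) ^ (-(5 / 8 : ℝ))) v), Real.exp_pos _, fun T hT => ?_⟩
  set W : Finset (Pl K) := T.biUnion id with hW
  have hWp : ∀ v ∈ W, ¬ (nm v).Prime := by
    intro v hv
    rw [hW, Finset.mem_biUnion] at hv
    obtain ⟨E, hE, hvE⟩ := hv
    exact hT E hE v hvE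
  have hTW : T ⊆ W.powerset := by
    intro E hE
    rw [Finset.mem_powerset]
    intro v hv
    rw [hW, Finset.mem_biUnion]
    exact ⟨E, hE, hv⟩
  have hterm : ∀ E : Finset (Pl K), (5 : ℝ) ^ E.card * nr E ^ (-(5 / 8) : ℝ) =
      ∏ v ∈ E, 5 * (nm v : ℝ) ^ (-(5 / 8 : ℝ)) := by
    intro E
    rw [Finset.prod_mul_distrib, Finset.prod_const]
    congr 1
    unfold nr
    rw [Real.finsetProd_rpow _ _ fun v _ => Nat.cast_nonneg _]
  have hnn : ∀ E : Finset (Pl K), 0 ≤ (5 : ℝ) ^ E.card * nr E ^ (-(5 / 8) : ℝ) := by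
    intro E
    rw [hterm E]
    exact Finset.prod_nonneg fun v _ => mul_nonneg (by norm_num) (es_nn v _)
  calc ∑ E ∈ T, (5 : ℝ) ^ E.card * nr E ^ (-(5 / 8) : ℝ)
      ≤ ∑ E ∈ W.powerset, (5 : ℝ) ^ E.card * nr E ^ (-(5 / 8) : ℝ) :=
        Finset.sum_le_sum_of_subset_of_nonneg hTW fun E _ _ => hnn E
    _ = ∏ v ∈ W, (1 + 5 * (nm v : ℝ) ^ (-(5 / 8 : ℝ))) := by
        rw [Finset.prod_one_add]
        exact Finset.sum_congr rfl fun E _ => hterm E
    _ ≤ ∏ v ∈ W, Real.exp (5 * (nm v : ℝ) ^ (-(5 / 8 : ℝ))) := by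
        refine Finset.prod_le_prod (fun v _ => ?_) fun v _ => ?_
        · have := es_nn v (-(5 / 8 : ℝ))
          positivity
        · have := Real.add_one_le_exp (5 * (nm v : ℝ) ^ (-(5 / 8 : ℝ)))
          linarith
    _ = Real.exp (∑ v ∈ W, 5 * (nm v : ℝ) ^ (-(5 / 8 : ℝ))) := (Real.exp_sum _ _).symm
    _ ≤ _ := by
        apply Real.exp_le_exp.2
        rw [← Finset.mul_sum]
        refine mul_le_mul_of_nonneg_left ?_ (by norm_num)
        have h1 : ∑ v ∈ W, (nm v : ℝ) ^ (-(5 / 8 : ℝ)) =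
            ∑ v ∈ W, Set.indicator {v : Pl K | ¬ (nm v).Prime}
              (fun v => (nm v : ℝ) ^ (-(5 / 8 : ℝ))) v := by
          refine Finset.sum_congr rfl fun v hv => ?_
          rw [Set.indicator_of_mem]
          exact hWp v hv
        rw [h1]
        exact hs.sum_le_tsum W fun v _ => Set.indicator_nonneg (fun v _ => es_nn v _) v

end H38.MT
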