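import Pool.Agent.H38.MT.TU
import Pool.Agent.H38.MT.ES

/-!
# [H38 MT TT] the pairs with a large prime of non-prime norm, 60-100 lines. File Pool/Agent/H38/MT/TT.lean

Proof of `tt`. The set `A` of the pairs `(χ, q) ∈ PR Q S0 X` with a prime `l ∈ rf ∪ q` of non-prime norm `> Z` is finite (`pr_fin`); it is the disjoint union over the finite set `T` of the sets `E = (rf ∪ q).filter (non-prime norm)`, `(χ, q) ∈ A`, of subsets of the sets of `tu` (`Finset.sum_fiberwise_of_maps_to`). For `E ∈ T`: `E` consists of primes outside `S0` (`ba_mem`, definition of `PR`) of non-prime norm and `nr E ≥ nm l > Z` (`nr E` is a product of numbers `≥ 1`).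
So `ws A ≤ ∑_{E ∈ T} C₁ 5^{#E} (nr E)^(-3/4) X (1 + log X)^2` and `(nr E)^(-3/4) = (nr E)^(-1/8) (nr E)^(-5/8) ≤ Z^(-1/8) (nr E)^(-5/8)`; `es`.
Proof of `ts` (`S ⊆ S0`). `(χ, q) ↦ (χ, q ∖ S0)` maps the set of `ts` into the set of `tt`: `rf Q S0 χ = rf Q S χ \ S0` (`ba_sd`), so `nr (rf Q S0 χ) * nr (q ∖ S0) ≤ nr (rf Q S χ) * nr q ≤ X` (`nr_mono`, `nr ≥ 1`). The fibre over `(χ, q')` consists of `(χ, q' ∪ s)`, `s ⊆ S0`, of weight `3 ^ #q' 3 ^ #s`, so it contributes at most `3 ^ #q' 4 ^ #S0` (`Finset.sum_pow_mul_eq_add_pow`, or: at most `2 ^ #S0` sets `s`, each `3 ^ #s ≤ 3 ^ #S0`; constant `6 ^ #S0`).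
-/

set_option autoImplicit false

open scoped NumberField Classical
open IsDedekindDomain H38.ML H63.MA H38.BB H48.KV H48.T3

noncomputable section

namespace H38.MT

variable {K : IntermediateField ℚ QBar} [NumberField K] {ω : K}

private theorem tt_ws {A : Set ((Gal(QBar/K) →* Multiplicative (ZMod 3)) × Finset (Pl K))}
    (hA : A.Finite) : ws A = ∑ z ∈ hA.toFinset, (3 : ℝ) ^ z.2.card := by
  unfold ws
  exact finsum_mem_eq_finite_toFinset_sum _ hA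

theorem tt (hω : IsPrimitiveRoot ω 3) (D : RD K 3 ω) (Q : DP K QBar) :
    ∃ C : ℝ, 0 < C ∧ ∀ Z X : ℝ, 1 ≤ Z → 1 ≤ X →
      ws {z | z ∈ PR Q D.S0 X ∧ ∃ l ∈ rf Q D.S0 z.1 ∪ z.2, ¬ (nm l).Prime ∧ Z < (nm l : ℝ)} ≤
        C * Z ^ (-(1 / 8) : ℝ) * X * (1 + Real.log X) ^ 2 := by
  obtain ⟨C1, hC1, h1⟩ := tu hω D Q
  obtain ⟨C2, hC2, h2⟩ := es K
  refine ⟨C1 * C2, mul_pos hC1 hC2, fun Z X hZ hX => ?_⟩
  have hZ0 : 0 < Z := by linarith
  have hlog : 0 ≤ Real.log X := Real.log_nonneg hX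
  have hP := pr_fin hω Q D.S0 X
  have hA : {z : (Gal(QBar/K) →* Multiplicative (ZMod 3)) × Finset (Pl K) | z ∈ PR Q D.S0 X ∧
      ∃ l ∈ rf Q D.S0 z.1 ∪ z.2, ¬ (nm l).Prime ∧ Z < (nm l : ℝ)}.Finite :=
    hP.subset fun z hz => hz.1
  set e : (Gal(QBar/K) →* Multiplicative (ZMod 3)) × Finset (Pl K) → Finset (Pl K) :=
    fun z => (rf Q D.S0 z.1 ∪ z.2).filter (fun l => ¬ (nm l).Prime) with he
  rw [tt_ws hA]
  have hmap : ∀ z ∈ hA.toFinset, e z ∈ hA.toFinset.image e := fun z hz =>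
    Finset.mem_image_of_mem e hz
  rw [← Finset.sum_fiberwise_of_maps_to hmap]
  have hT : ∀ E ∈ hA.toFinset.image e, (∀ l ∈ E, l ∉ D.S0 ∧ ¬ (nm l).Prime) ∧ Z < nr E := by
    intro E hE
    obtain ⟨z, hz, rfl⟩ := Finset.mem_image.1 hE
    rw [Set.Finite.mem_toFinset] at hz
    obtain ⟨⟨hch, hq, -⟩, l, hl, hlp, hlZ⟩ := hz
    have hft : FT z.1 := hch.1
    refine ⟨fun v hv => ?_, ?_⟩
    · rw [he, Finset.mem_filter, Finset.mem_union] at hv
      refine ⟨?_, hv.2⟩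
      rcases hv.1 with hv | hv
      · exact ((ba_mem Q D.S0 hft v).1 hv).1
      · exact (hq v hv).1
    · have h3 : ({l} : Finset (Pl K)) ⊆ e z := by
        rw [Finset.singleton_subset_iff, he, Finset.mem_filter]
        exact ⟨hl, hlp⟩
      have h4 := nr_mono h3
      have h5 : nr ({l} : Finset (Pl K)) = (nm l : ℝ) := by
        unfold nr
        rw [Finset.prod_singleton]
      rw [h5] at h4
      linarith
  have hfib : ∀ E ∈ hA.toFinset.image e,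
      ∑ z ∈ hA.toFinset.filter (fun z => e z = E), (3 : ℝ) ^ z.2.card ≤
        C1 * Z ^ (-(1 / 8) : ℝ) * X * (1 + Real.log X) ^ 2 *
          ((5 : ℝ) ^ E.card * nr E ^ (-(5 / 8) : ℝ)) := by
    intro E hE
    obtain ⟨hE1, hE2⟩ := hT E hE
    have h3 := h1 E hE1 X hX
    have hB : {z : (Gal(QBar/K) →* Multiplicative (ZMod 3)) × Finset (Pl K) | z ∈ PR Q D.S0 X ∧
        (rf Q D.S0 z.1 ∪ z.2).filter (fun l => ¬ (nm l).Prime) = E}.Finite :=
      hP.subset fun z hz => hz.1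
    rw [tt_ws hB] at h3
    have h4 : ∑ z ∈ hA.toFinset.filter (fun z => e z = E), (3 : ℝ) ^ z.2.card ≤
        ∑ z ∈ hB.toFinset, (3 : ℝ) ^ z.2.card := by
      refine Finset.sum_le_sum_of_subset_of_nonneg ?_ fun z _ _ => by positivity
      intro z hz
      obtain ⟨hz1, hz2⟩ := Finset.mem_filter.1 hz
      rw [Set.Finite.mem_toFinset] at hz1 ⊢
      exact ⟨hz1.1, hz2⟩
    have hE0 : 0 < nr E := by linarith
    have h5 : nr E ^ (-(3 / 4) : ℝ) ≤ Z ^ (-(1 / 8) : ℝ) * nr E ^ (-(5 / 8) : ℝ) := by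
      have h6 : nr E ^ (-(3 / 4) : ℝ) = nr E ^ (-(1 / 8) : ℝ) * nr E ^ (-(5 / 8) : ℝ) := by
        rw [← Real.rpow_add hE0]
        norm_num
      rw [h6]
      refine mul_le_mul_of_nonneg_right ?_ (Real.rpow_nonneg hE0.le _)
      exact Real.rpow_le_rpow_of_nonpos hZ0 hE2.le (by norm_num)
    calc ∑ z ∈ hA.toFinset.filter (fun z => e z = E), (3 : ℝ) ^ z.2.card
        ≤ C1 * 5 ^ E.card * nr E ^ (-(3 / 4) : ℝ) * X * (1 + Real.log X) ^ 2 := h4.trans h3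
      _ ≤ C1 * 5 ^ E.card * (Z ^ (-(1 / 8) : ℝ) * nr E ^ (-(5 / 8) : ℝ)) * X *
          (1 + Real.log X) ^ 2 := by
          refine mul_le_mul_of_nonneg_right (mul_le_mul_of_nonneg_right ?_ (by linarith))
            (by positivity)
          exact mul_le_mul_of_nonneg_left h5 (by positivity)
      _ = C1 * Z ^ (-(1 / 8) : ℝ) * X * (1 + Real.log X) ^ 2 *
          ((5 : ℝ) ^ E.card * nr E ^ (-(5 / 8) : ℝ)) := by ring
  calc ∑ E ∈ hA.toFinset.image e, ∑ z ∈ hA.toFinset.filter (fun z => e z = E), (3 : ℝ) ^ z.2.card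
      ≤ ∑ E ∈ hA.toFinset.image e, C1 * Z ^ (-(1 / 8) : ℝ) * X * (1 + Real.log X) ^ 2 *
          ((5 : ℝ) ^ E.card * nr E ^ (-(5 / 8) : ℝ)) := Finset.sum_le_sum hfib
    _ = C1 * Z ^ (-(1 / 8) : ℝ) * X * (1 + Real.log X) ^ 2 *
        ∑ E ∈ hA.toFinset.image e, ((5 : ℝ) ^ E.card * nr E ^ (-(5 / 8) : ℝ)) := by
        rw [Finset.mul_sum]
    _ ≤ C1 * Z ^ (-(1 / 8) : ℝ) * X * (1 + Real.log X) ^ 2 * C2 := by
        refine mul_le_mul_of_nonneg_left ?_ (by positivity)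
        exact h2 _ fun E hE l hl => ((hT E hE).1 l hl).2
    _ = C1 * C2 * Z ^ (-(1 / 8) : ℝ) * X * (1 + Real.log X) ^ 2 := by ring

theorem ts (hω : IsPrimitiveRoot ω 3) (D : RD K 3 ω) (Q : DP K QBar) (S : Finset (Pl K))
    (hS : S ⊆ D.S0) :
    ∃ C : ℝ, 0 < C ∧ ∀ Z X : ℝ, 1 ≤ Z → 1 ≤ X →
      ws {z | z ∈ PR Q S X ∧
        ∃ l ∈ rf Q S z.1 ∪ z.2, l ∉ D.S0 ∧ ¬ (nm l).Prime ∧ Z < (nm l : ℝ)} ≤
        C * Z ^ (-(1 / 8) : ℝ) * X * (1 + Real.log X) ^ 2 := by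
  obtain ⟨C, hC, h1⟩ := tt hω D Q
  refine ⟨6 ^ D.S0.card * C, by positivity, fun Z X hZ hX => ?_⟩
  have h2 := h1 Z X hZ hX
  have hA : {z : (Gal(QBar/K) →* Multiplicative (ZMod 3)) × Finset (Pl K) | z ∈ PR Q D.S0 X ∧
      ∃ l ∈ rf Q D.S0 z.1 ∪ z.2, ¬ (nm l).Prime ∧ Z < (nm l : ℝ)}.Finite :=
    (pr_fin hω Q D.S0 X).subset fun z hz => hz.1
  have hB : {z : (Gal(QBar/K) →* Multiplicative (ZMod 3)) × Finset (Pl K) | z ∈ PR Q S X ∧
      ∃ l ∈ rf Q S z.1 ∪ z.2, l ∉ D.S0 ∧ ¬ (nm l).Prime ∧ Z < (nm l : ℝ)}.Finite :=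
    (pr_fin hω Q S X).subset fun z hz => hz.1
  rw [tt_ws hA] at h2
  rw [tt_ws hB]
  set g : (Gal(QBar/K) →* Multiplicative (ZMod 3)) × Finset (Pl K) →
    (Gal(QBar/K) →* Multiplicative (ZMod 3)) × Finset (Pl K) :=
    fun z => (z.1, z.2 \ D.S0) with hg
  have hmap : ∀ z ∈ hB.toFinset, g z ∈ hA.toFinset := by
    intro z hz
    rw [Set.Finite.mem_toFinset] at hz ⊢
    obtain ⟨⟨hch, hq, hX1⟩, l, hl, hlS, hlp, hlZ⟩ := hz
    have hft : FT z.1 := hch.1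
    have hsd := ba_sd Q hS hft
    refine ⟨⟨hch, fun v hv => ?_, ?_⟩, l, ?_, hlp, hlZ⟩
    · have hv2 := Finset.mem_sdiff.1 hv
      exact ⟨hv2.2, (hq v hv2.1).2⟩
    · refine le_trans ?_ hX1
      have h3 : nr (rf Q D.S0 z.1) ≤ nr (rf Q S z.1) := by
        rw [hsd]
        exact nr_mono Finset.sdiff_subset
      have h4 : nr (z.2 \ D.S0) ≤ nr z.2 := nr_mono Finset.sdiff_subset
      have h5 := one_le_nr (z.2 \ D.S0)
      have h6 := one_le_nr (rf Q S z.1)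
      exact mul_le_mul h3 h4 (by linarith) (by linarith)
    · show l ∈ rf Q D.S0 z.1 ∪ (z.2 \ D.S0)
      rw [Finset.mem_union] at hl ⊢
      rcases hl with hl | hl
      · left
        rw [hsd, Finset.mem_sdiff]
        exact ⟨hl, hlS⟩
      · right
        exact Finset.mem_sdiff.2 ⟨hl, hlS⟩
  rw [← Finset.sum_fiberwise_of_maps_to hmap]
  have hfib : ∀ w ∈ hA.toFinset, ∑ z ∈ hB.toFinset.filter (fun z => g z = w), (3 : ℝ) ^ z.2.card ≤
      6 ^ D.S0.card * (3 : ℝ) ^ w.2.card := by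
    intro w _
    have h3 : ∀ z ∈ hB.toFinset.filter (fun z => g z = w),
        (3 : ℝ) ^ z.2.card ≤ 3 ^ D.S0.card * 3 ^ w.2.card := by
      intro z hz
      have hz2 : g z = w := (Finset.mem_filter.1 hz).2
      have hw : w.2 = z.2 \ D.S0 := by rw [← hz2]
      have h4 : z.2.card ≤ D.S0.card + w.2.card := by
        have h5 : z.2 ⊆ D.S0 ∪ w.2 := by
          intro v hv
          rw [Finset.mem_union, hw, Finset.mem_sdiff]
          by_cases hvS : v ∈ D.S0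
          · exact Or.inl hvS
          · exact Or.inr ⟨hv, hvS⟩
        exact (Finset.card_le_card h5).trans (Finset.card_union_le _ _)
      rw [← pow_add]
      exact pow_le_pow_right₀ (by norm_num) h4
    have h4 : (hB.toFinset.filter (fun z => g z = w)).card ≤ 2 ^ D.S0.card := by
      rw [← Finset.card_powerset]
      refine Finset.card_le_card_of_injOn (fun z => z.2 ∩ D.S0) ?_ ?_
      · intro z _
        exact Finset.mem_coe.2 (Finset.mem_powerset.2 Finset.inter_subset_right)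
      · intro z hz z' hz' hzz
        have h5 : g z = w := (Finset.mem_filter.1 (Finset.mem_coe.1 hz)).2
        have h6 : g z' = w := (Finset.mem_filter.1 (Finset.mem_coe.1 hz')).2
        have h7 : g z = g z' := h5.trans h6.symm
        simp only [hg, Prod.mk.injEq] at h7
        obtain ⟨h8, h9⟩ := h7
        refine Prod.ext h8 ?_
        have h10 : z.2 ∩ D.S0 = z'.2 ∩ D.S0 := hzz
        rw [← Finset.sdiff_union_inter z.2 D.S0, h9, h10, Finset.sdiff_union_inter]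
    calc ∑ z ∈ hB.toFinset.filter (fun z => g z = w), (3 : ℝ) ^ z.2.card
        ≤ ∑ z ∈ hB.toFinset.filter (fun z => g z = w), ((3 : ℝ) ^ D.S0.card * 3 ^ w.2.card) :=
          Finset.sum_le_sum h3
      _ = ((hB.toFinset.filter (fun z => g z = w)).card : ℝ) *
          ((3 : ℝ) ^ D.S0.card * 3 ^ w.2.card) := by rw [Finset.sum_const, nsmul_eq_mul]
      _ ≤ (2 : ℝ) ^ D.S0.card * ((3 : ℝ) ^ D.S0.card * 3 ^ w.2.card) := by
          refine mul_le_mul_of_nonneg_right ?_ (by positivity)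
          exact_mod_cast h4
      _ = 6 ^ D.S0.card * (3 : ℝ) ^ w.2.card := by
          rw [← mul_assoc, ← mul_pow]
          norm_num
  calc ∑ w ∈ hA.toFinset, ∑ z ∈ hB.toFinset.filter (fun z => g z = w), (3 : ℝ) ^ z.2.card
      ≤ ∑ w ∈ hA.toFinset, 6 ^ D.S0.card * (3 : ℝ) ^ w.2.card := Finset.sum_le_sum hfib
    _ = 6 ^ D.S0.card * ∑ w ∈ hA.toFinset, (3 : ℝ) ^ w.2.card := by rw [Finset.mul_sum]
    _ ≤ 6 ^ D.S0.card * (C * Z ^ (-(1 / 8) : ℝ) * X * (1 + Real.log X) ^ 2) :=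
        mul_le_mul_of_nonneg_left h2 (by positivity)
    _ = 6 ^ D.S0.card * C * Z ^ (-(1 / 8) : ℝ) * X * (1 + Real.log X) ^ 2 := by ring

end H38.MT
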