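import Pool.Agent.H38.MT.PL
import Pool.Agent.H38.MT.TT
import Pool.Agent.H63.MB.BUe

/-!
# H38/MT/FN: the main term (assembly)

INTERFACE: `mt_cnt`, `mt_lim`.
-/

set_option autoImplicit false

open scoped NumberField Classical
open IsDedekindDomain H38.ML H63.MA H38.BB H38.AS H48.KV H48.T3 Filter Topology

noncomputable section

namespace H38.MT

variable {K : IntermediateField ℚ QBar} [NumberField K] {ω : K}

theorem pr_lim (hω : IsPrimitiveRoot ω 3) (Q : DP K QBar) (S : Finset (Pl K))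
    (χ₁ : Gal(QBar/K) →* Multiplicative (ZMod 3)) :
    ∃ L : ℝ, Tendsto (fun X : ℝ => ws {z | z ∈ PR Q S X ∧ Teq S Q z.1 χ₁} /
      (X * Real.log X ^ 2)) atTop (𝓝 L) := by
  have hm := mone_odd Nat.prime_three (by norm_num) K
  obtain ⟨D₀, hD₀⟩ := exists_RD_of K Nat.prime_three hm hω S
  obtain ⟨C, hC, hts⟩ := ts hω D₀ Q S hD₀
  refine bue_cauchy _ fun ε hε => ?_
  -- the cut-off
  obtain ⟨Z, hZ1, hZ⟩ : ∃ Z : ℝ, 1 ≤ Z ∧ 4 * C * Z ^ (-(1 / 8) : ℝ) ≤ ε := by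
    have h1 : Tendsto (fun Z : ℝ => 4 * C * Z ^ (-(1 / 8) : ℝ)) atTop (𝓝 (4 * C * 0)) :=
      (tendsto_rpow_neg_atTop (show (0 : ℝ) < 1 / 8 by norm_num)).const_mul _
    rw [mul_zero] at h1
    have h2 := (h1.eventually_lt_const hε).and (eventually_ge_atTop (1 : ℝ))
    obtain ⟨Z, h3, h4⟩ := h2.exists
    exact ⟨Z, h4, h3.le⟩
  obtain ⟨D, hD⟩ := exists_RD_of K Nat.prime_three hm hω (D₀.S0 ∪ (acntb_fin K Z).toFinset)
  have hDD : ∀ l, l ∉ D.S0 → l ∉ D₀.S0 ∧ Z < (nm l : ℝ) := by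
    intro l hl
    refine ⟨fun h => hl (hD l (Finset.mem_union_left _ h)), ?_⟩
    by_contra h
    exact hl (hD l (Finset.mem_union_right _ ((acntb_fin K Z).mem_toFinset.2 (not_lt.1 h))))
  have hSD : S ⊆ D.S0 := fun l hl => hD l (Finset.mem_union_left _ (hD₀ l hl))
  obtain ⟨L, hL⟩ := pg_lim hω D Q S hSD χ₁
  refine ⟨_, L, hL, ?_⟩
  filter_upwards [eventually_ge_atTop (3 : ℝ)] with X hX
  have hX0 : 0 < X := by linarith
  have hX1 : 1 ≤ X := by linarith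
  have hlog : 1 ≤ Real.log X := by
    rw [Real.le_log_iff_exp_le hX0]
    linarith [Real.exp_one_lt_d9]
  have hP : 0 < X * Real.log X ^ 2 := by positivity
  have hfin := pr_fin hω Q S X
  obtain ⟨T, hT⟩ : ∃ T, T = {z | z ∈ PR Q S X ∧ Teq S Q z.1 χ₁} := ⟨_, rfl⟩
  obtain ⟨Bt, hBt⟩ : ∃ Bt, Bt = {z | z ∈ PR Q S X ∧
    ∃ l ∈ rf Q S z.1 ∪ z.2, l ∉ D₀.S0 ∧ ¬ (nm l).Prime ∧ Z < (nm l : ℝ)} := ⟨_, rfl⟩
  have hsub : PG Q S D.S0 χ₁ X ⊆ T := by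
    rw [hT]
    rintro z ⟨h1, h2, -⟩
    exact ⟨h1, h2⟩
  have hTf : T.Finite := by
    rw [hT]
    exact hfin.subset fun z hz => hz.1
  have hBf : Bt.Finite := by
    rw [hBt]
    exact hfin.subset fun z hz => hz.1
  have hrest : T \ PG Q S D.S0 χ₁ X ⊆ Bt := by
    rw [hT, hBt]
    rintro z ⟨⟨h1, h2⟩, h3⟩
    have h4 : ¬ ∀ l ∈ rf Q S z.1 ∪ z.2, l ∉ D.S0 → (nm l).Prime := fun h => h3 ⟨h1, h2, h⟩
    push Not at h4
    obtain ⟨l, hl1, hl2, hl3⟩ := h4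
    exact ⟨h1, l, hl1, (hDD l hl2).1, hl3, (hDD l hl2).2⟩
  have h5 : ws T = ws (PG Q S D.S0 χ₁ X) + ws (T \ PG Q S D.S0 χ₁ X) := by
    rw [← ws_add (hTf.subset hsub) (hTf.subset Set.diff_subset) Set.disjoint_sdiff_right,
      Set.union_diff_cancel hsub]
  have h6 : ws (T \ PG Q S D.S0 χ₁ X) ≤ C * Z ^ (-(1 / 8) : ℝ) * X * (1 + Real.log X) ^ 2 := by
    refine (ws_mono hBf hrest).trans ?_
    rw [hBt]
    exact hts Z X hZ1 hX1
  have h7 := ws_nn (T \ PG Q S D.S0 χ₁ X)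
  rw [← hT, ← sub_div, h5, add_sub_cancel_left, abs_of_nonneg (div_nonneg h7 hP.le),
    div_le_iff₀ hP]
  refine h6.trans ?_
  have h8 : (1 + Real.log X) ^ 2 ≤ 4 * Real.log X ^ 2 := by nlinarith
  have hCZ : 0 ≤ C * Z ^ (-(1 / 8) : ℝ) * X := by positivity
  calc C * Z ^ (-(1 / 8) : ℝ) * X * (1 + Real.log X) ^ 2
      ≤ C * Z ^ (-(1 / 8) : ℝ) * X * (4 * Real.log X ^ 2) := mul_le_mul_of_nonneg_left h8 hCZ
    _ = (4 * C * Z ^ (-(1 / 8) : ℝ)) * (X * Real.log X ^ 2) := by ring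
    _ ≤ ε * (X * Real.log X ^ 2) := mul_le_mul_of_nonneg_right hZ hP.le

/-- INTERFACE: the number of characters -/
theorem mt_cnt (hω : IsPrimitiveRoot ω 3) (Q : DP K QBar) (S : Finset (Pl K)) :
    ∃ C : ℝ, 0 < C ∧ ∀ X : ℝ, 1 ≤ X → {χ | χ ∈ Ch K ∧ cf Q S χ ≤ X}.Finite ∧
      ({χ | χ ∈ Ch K ∧ cf Q S χ ≤ X}.ncard : ℝ) ≤ C * X * (1 + Real.log X) := by
  have hm := mone_odd Nat.prime_three (by norm_num) K
  obtain ⟨D, hD⟩ := exists_RD_of K Nat.prime_three hm hω S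
  obtain ⟨U, hU⟩ := exists_UR D.toRD0
  obtain ⟨C₁, hC₁, h₁⟩ := af_card K
  obtain ⟨C₂, hC₂, h₂⟩ := af_inv K
  refine ⟨(U.card + 1) * (C₁ * C₂), by positivity, fun X hX => ?_⟩
  have hX0 : 0 < X := by linarith
  obtain ⟨I, hI⟩ : ∃ I : Finset (Kˣ × (Σ _ : Finset (Pl K), Finset (Pl K))),
    I = U ×ˢ ((AF K X).sigma fun a => AF K (X / nr a)) := ⟨_, rfl⟩
  have hsub : {χ | χ ∈ Ch K ∧ cf Q S χ ≤ X} ⊆
      ↑(I.image fun x => ch D.toRD0 x.1 x.2.1 x.2.2) := by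
    rintro χ ⟨hχ, hcf⟩
    obtain ⟨u, hu, a, b, hab, rfl⟩ := ka_ex hω D.toRD0 hU χ hχ.1
    rw [Finset.mem_coe, Finset.mem_image]
    have h3 : rf Q D.S0 (ch D.toRD0 u a b) = a ∪ b := ka_rf hω D.toRD0 Q (hU.tu u hu) hab
    have h4 : rf Q D.S0 (ch D.toRD0 u a b) = rf Q S (ch D.toRD0 u a b) \ D.S0 :=
      ba_sd Q (fun l hl => hD l hl) hχ.1
    have h5 : nr (a ∪ b) ≤ X := by
      rw [← h3, h4]
      exact (nr_mono Finset.sdiff_subset).trans hcf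
    rw [nr_union hab.1] at h5
    have ha := one_le_nr a
    have hb := one_le_nr b
    refine ⟨(u, ⟨a, b⟩), ?_, rfl⟩
    rw [hI, Finset.mem_product, Finset.mem_sigma, mem_AF, mem_AF]
    refine ⟨hu, ?_, ?_⟩
    · nlinarith
    · rw [le_div_iff₀ (by linarith)]
      nlinarith
  refine ⟨(Finset.finite_toSet _).subset hsub, ?_⟩
  have h6 : ({χ | χ ∈ Ch K ∧ cf Q S χ ≤ X}.ncard : ℝ) ≤ (I.card : ℝ) := by
    have h7 := (Set.ncard_le_ncard hsub (Finset.finite_toSet _)).trans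
      (le_of_eq (Set.ncard_coe_finset _))
    exact_mod_cast h7.trans Finset.card_image_le
  have h8 : ((∑ a ∈ AF K X, (AF K (X / nr a)).card : ℕ) : ℝ) ≤
      C₁ * C₂ * X * (1 + Real.log X) := by
    push_cast
    have h9 : ∀ a ∈ AF K X, ((AF K (X / nr a)).card : ℝ) ≤ C₁ * X * (nr a)⁻¹ := by
      intro a ha
      have ha1 := one_le_nr a
      have h10 : 1 ≤ X / nr a := by
        rw [le_div_iff₀ (by linarith), one_mul]
        exact mem_AF.1 ha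
      refine (h₁ _ h10).trans (le_of_eq ?_)
      rw [div_eq_mul_inv]
      ring
    refine (Finset.sum_le_sum h9).trans ?_
    rw [← Finset.mul_sum]
    calc C₁ * X * ∑ a ∈ AF K X, (nr a)⁻¹ ≤ C₁ * X * (C₂ * (1 + Real.log X)) :=
          mul_le_mul_of_nonneg_left (h₂ X hX) (by positivity)
      _ = C₁ * C₂ * X * (1 + Real.log X) := by ring
  have hlog : 0 ≤ Real.log X := Real.log_nonneg hX
  refine h6.trans ?_
  rw [hI, Finset.card_product, Finset.card_sigma, Nat.cast_mul]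
  have h11 : 0 ≤ C₁ * C₂ * X * (1 + Real.log X) := by positivity
  calc (U.card : ℝ) * ((∑ a ∈ AF K X, (AF K (X / nr a)).card : ℕ) : ℝ)
      ≤ (U.card + 1) * (C₁ * C₂ * X * (1 + Real.log X)) :=
        mul_le_mul (by linarith) h8 (Nat.cast_nonneg _) (by positivity)
    _ = (U.card + 1) * (C₁ * C₂) * X * (1 + Real.log X) := by ring

/-- INTERFACE: the main term -/
theorem mt_lim (hω : IsPrimitiveRoot ω 3) (Q : DP K QBar) (S : Finset (Pl K))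
    (χ₁ : Gal(QBar/K) →* Multiplicative (ZMod 3)) :
    (∀ X, (CX Q S χ₁ X).Finite) ∧ ∃ L : ℝ, Tendsto (fun X : ℝ =>
      (∑ᶠ χ ∈ CX Q S χ₁ X, mq Q S χ (X / cf Q S χ)) / (X * Real.log X ^ 2)) atTop (𝓝 L) := by
  have hfin : ∀ X, (CX Q S χ₁ X).Finite := by
    obtain ⟨C, -, hC⟩ := mt_cnt hω Q S
    intro X
    refine ((hC (max X 1) (le_max_right _ _)).1).subset ?_
    rintro χ ⟨h1, -, h2⟩
    exact ⟨h1, h2.trans (le_max_left _ _)⟩
  refine ⟨hfin, ?_⟩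
  obtain ⟨L, hL⟩ := pr_lim hω Q S χ₁
  refine ⟨L, hL.congr fun X => ?_⟩
  congr 1
  have hT : {z | z ∈ PR Q S X ∧ Teq S Q z.1 χ₁}.Finite :=
    (pr_fin hω Q S X).subset fun z hz => hz.1
  rw [ws, finsum_mem_eq_finite_toFinset_sum _ hT, finsum_mem_eq_finite_toFinset_sum _ (hfin X)]
  have h1 := Finset.sum_finset_product hT.toFinset (hfin X).toFinset
    (fun χ => SQ Q S χ (X / cf Q S χ)) (f := fun z => (3 : ℝ) ^ z.2.card) (by
      rintro ⟨χ, q⟩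
      rw [Set.Finite.mem_toFinset, Set.Finite.mem_toFinset]
      have hcf : 0 < cf Q S χ := lt_of_lt_of_le one_pos (one_le_nr _)
      have hq := one_le_nr q
      constructor
      · rintro ⟨⟨h2, h3, h4⟩, h5⟩
        refine ⟨⟨h2, h5, ?_⟩, ?_⟩
        · have h6 : cf Q S χ * nr q ≤ X := h4
          nlinarith
        · change q ∈ SQ Q S χ (X / cf Q S χ)
          rw [SQ, Finset.mem_filter, mem_AF]
          refine ⟨?_, h3⟩
          rw [le_div_iff₀ hcf, mul_comm]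
          exact h4
      · rintro ⟨⟨h2, h5, -⟩, h7⟩
        change q ∈ SQ Q S χ (X / cf Q S χ) at h7
        rw [SQ, Finset.mem_filter, mem_AF, le_div_iff₀ hcf, mul_comm] at h7
        exact ⟨⟨h2, h7.2, h7.1⟩, h5⟩)
  rw [h1]
  rfl

end H38.MT
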