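import Pool.Agent.H38.MT.Defs

/-!
# [H38 MT CW] the class data `c3`, 50-90 lines. File Pool/Agent/H38/MT/CW.lean

Unfold `akR`, `wtR`, `SpR` (`H38/BB/CDef.lean`) for `c3` (`MT/Defs.lean`), `Fin.prod_univ_three`.
* `cw_ak`: `∏ i, ∏ w ∈ f i, pi w ^ (c3.x i k).val = (∏_{f 0} pi ^ 0) (∏_{f 1} pi ^ 1) (∏_{f 2} pi ^ 2)`.
* `cw_wt`: `Θ 0 = ⊤` (cardinality 3, the condition `∀ θ, dt θ (F v) = 0` is `F v 0 = 0`: take `θ = 1`), `Θ 1 = Θ 2 = ⊥` (factor 1: `dt 0 _ = 0`, `Nat.card (⊥ : Submodule) = 1`).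
* `cw_sp`: `θ ≠ 0` in `Fin 1 → ZMod 3` means `θ 0 = 1` or `2`; `dt θ (x i) = θ 0 * x i 0` is `0` for `i = 0` and `≠ 0` for `i = 1, 2`; `bp (fun _ => b) θ = b ^ (θ 0).val`, and `b` or `b ^ 2` is a cube iff `b` is (`b = b ^ 3 * (b ^ 2)⁻¹`).
-/

set_option autoImplicit false

open scoped NumberField Classical
open IsDedekindDomain H38.ML H63.MA H38.BB H48.KV H48.T3

noncomputable section

namespace H38.MT

variable {K : IntermediateField ℚ QBar} [NumberField K] {ω : K}

private lemma c3x0 : c3.x 0 = 0 := by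
  simp [c3]

private lemma c3x1 : c3.x 1 = fun _ => 1 := by
  simp [c3]

private lemma c3x2 : c3.x 2 = fun _ => 2 := by
  simp [c3]

private lemma c3T0 : c3.Θ 0 = ⊤ := by
  simp [c3]

private lemma c3T1 : c3.Θ 1 = ⊥ := by
  simp [c3]

private lemma c3T2 : c3.Θ 2 = ⊥ := by
  simp [c3]

theorem cw_ak (D : RD0 K 3 ω) (b : Kˣ) (f : Fin 3 → Finset (Pl K)) (k : Fin 1) :
    akR D c3 (fun _ => b) f k = b * ((∏ v ∈ f 1, D.pi v) * ∏ v ∈ f 2, D.pi v ^ 2) := by
  unfold akR
  rw [Fin.prod_univ_three, c3x0, c3x1, c3x2]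
  have h1 : ((1 : ZMod 3)).val = 1 := by decide
  have h2 : ((2 : ZMod 3)).val = 2 := by decide
  simp only [Pi.zero_apply, ZMod.val_zero, pow_zero, Finset.prod_const_one, one_mul, h1, h2,
    pow_one]

theorem cw_wt (F : Pl K → Fin 1 → ZMod 3) (f : Fin 3 → Finset (Pl K)) :
    wtR c3 f F = if ∀ v ∈ f 0, F v 0 = 0 then (3 : ℝ) ^ (f 0).card else 0 := by
  have hcb : Nat.card (⊥ : Submodule (ZMod 3) (Fin 1 → ZMod 3)) = 1 := by
    rw [Nat.card_eq_one_iff_unique]
    exact ⟨inferInstance, inferInstance⟩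
  have hct : Nat.card (⊤ : Submodule (ZMod 3) (Fin 1 → ZMod 3)) = 3 := by
    rw [Nat.card_congr (Submodule.topEquiv (R := ZMod 3) (M := Fin 1 → ZMod 3)).toEquiv,
      Nat.card_eq_fintype_card]
    decide
  have hv : ∀ v : Pl K, (∀ θ ∈ (⊤ : Submodule (ZMod 3) (Fin 1 → ZMod 3)), dt θ (F v) = 0)
      ↔ F v 0 = 0 := by
    intro v
    constructor
    · intro h
      have := h (fun _ => 1) trivial
      simpa [dt] using this
    · intro h θ _
      simp [dt, h]
  have hw : ∀ v : Pl K, (∀ θ ∈ (⊥ : Submodule (ZMod 3) (Fin 1 → ZMod 3)), dt θ (F v) = 0) := by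
    intro v θ hθ
    have h : θ = 0 := by simpa using hθ
    rw [h]
    simp [dt]
  unfold wtR
  rw [Fin.prod_univ_three, c3T0, c3T1, c3T2]
  have e : ∀ {x y z x' y' z' : ℝ}, x = x' → y = y' → z = z' → x * y * z = x' * y' * z' := by
    intro x y z x' y' z' h1 h2 h3
    rw [h1, h2, h3]
  have e0 : ∏ v ∈ f 0, (if F v 0 = 0 then (3 : ℝ) else 0)
      = if ∀ v ∈ f 0, F v 0 = 0 then (3 : ℝ) ^ (f 0).card else 0 := by
    rw [Finset.prod_ite_zero, Finset.prod_const]
  refine (e (x' := ∏ v ∈ f 0, (if F v 0 = 0 then (3 : ℝ) else 0)) (y' := 1) (z' := 1)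
    (Finset.prod_congr rfl fun v _ => ?_) (Finset.prod_eq_one fun v _ => ?_)
    (Finset.prod_eq_one fun v _ => ?_)).trans ?_
  · by_cases h : F v 0 = 0
    · rw [if_pos ((hv v).2 h), if_pos h, hct]
      norm_num
    · rw [if_neg (fun h' => h ((hv v).1 h')), if_neg h]
  · rw [if_pos (hw v), hcb, Nat.cast_one]
  · rw [if_pos (hw v), hcb, Nat.cast_one]
  · rw [mul_one, mul_one, e0]

theorem cw_sp (b : Kˣ) (f : Fin 3 → Finset (Pl K)) :
    SpR c3 (fun _ => b) f ↔ f 1 ≠ ∅ ∨ f 2 ≠ ∅ ∨ ¬ IsPow 3 b := by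
  unfold SpR
  constructor
  · intro h
    have h1 : (fun _ => 1 : Fin 1 → ZMod 3) ≠ 0 := by
      intro h0
      have := congrFun h0 0
      revert this
      decide
    rcases h _ h1 with ⟨i, hi, hd⟩ | h2
    · fin_cases i
      · exfalso
        apply hd
        show dt _ (c3.x 0) = 0
        rw [c3x0]
        simp [dt]
      · exact Or.inl hi
      · exact Or.inr (Or.inl hi)
    · refine Or.inr (Or.inr ?_)
      have e : bp (fun _ => b) (fun _ => 1 : Fin 1 → ZMod 3) = b := by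
        unfold bp
        have : ((1 : ZMod 3)).val = 1 := by decide
        simp [this]
      rwa [e] at h2
  · intro h θ hθ
    have h0 : θ 0 ≠ 0 := by
      intro h0
      apply hθ
      funext k
      rw [Subsingleton.elim k 0, h0]
      rfl
    rcases h with h | h | h
    · refine Or.inl ⟨1, h, ?_⟩
      rw [c3x1]
      simpa [dt] using h0
    · refine Or.inl ⟨2, h, ?_⟩
      rw [c3x2]
      have e : dt θ (fun _ => 2) = θ 0 * 2 := by simp [dt]
      rw [e]
      revert h0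
      generalize θ 0 = t
      revert t
      decide
    · refine Or.inr ?_
      have e : bp (fun _ => b) θ = b ^ (θ 0).val := by
        unfold bp
        simp
      rw [e]
      intro hp
      apply h
      have h12 : (θ 0).val = 1 ∨ (θ 0).val = 2 := by
        revert h0
        generalize θ 0 = t
        revert t
        decide
      rcases h12 with h1 | h2
      · rw [h1, pow_one] at hp
        exact hp
      · rw [h2] at hp
        obtain ⟨y, hy⟩ := hp
        refine ⟨b / y, ?_⟩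
        rw [div_pow, hy, pow_succ b 2]
        rw [mul_comm, mul_div_assoc, div_self', mul_one]

end H38.MT
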