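import Pool.Agent.H38.MT.KA
import Pool.Agent.H38.BB.RdOf

/-!
# [H38 MT PF] finiteness of the set of pairs, 50-80 lines. File Pool/Agent/H38/MT/PF.lean

`PR Q S X` is finite.

Proof. `exists_RD_of K Nat.prime_three (mone_odd ..) hω S` (`H38/BB/RdOf.lean`) gives `D` with `S ⊆ D.S0`, `exists_UR` gives `U`. Let `(χ, q) ∈ PR Q S X`: `χ = ch D u a b` (`ka_ex`), `rf Q D.S0 χ = a ∪ b` (`ka_rf`) is contained in `rf Q S χ` (`ba_sd`), so `nr a, nr b ≤ nr (rf Q S χ) ≤ X` (`nr_mono`, `one_le_nr`), and `nr q ≤ X`. So `PR` is contained in the image of the finite set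
`U × AF K X × AF K X × AF K X` under `(u, a, b, q) ↦ (ch D u a b, q)` (`mem_AF`; `Set.Finite.subset (Set.Finite.image ..)`).
`ws_mono`, `ws_add`, `ws_nn`: elementary properties of `ws` for finite sets (`finsum_mem_eq_finite_toFinset_sum`, `Finset.sum_le_sum_of_subset_of_nonneg`, `finsum_mem_union`).
-/

set_option autoImplicit false

open scoped NumberField Classical
open IsDedekindDomain H38.ML H63.MA H38.BB H48.KV H48.T3

noncomputable section

namespace H38.MT

variable {K : IntermediateField ℚ QBar} [NumberField K] {ω : K}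

theorem pr_fin (hω : IsPrimitiveRoot ω 3) (Q : DP K QBar) (S : Finset (Pl K)) (X : ℝ) :
    (PR Q S X).Finite := by
  obtain ⟨D, hD⟩ := exists_RD_of K Nat.prime_three
    (mone_odd Nat.prime_three (by norm_num) K) hω S
  obtain ⟨U, hU⟩ := exists_UR D.toRD0
  have hsub : S ⊆ D.S0 := fun v hv => hD v hv
  have hfin : ((U ×ˢ ((AF K X) ×ˢ ((AF K X) ×ˢ (AF K X))) :
      Finset (Kˣ × Finset (Pl K) × Finset (Pl K) × Finset (Pl K))) :
      Set (Kˣ × Finset (Pl K) × Finset (Pl K) × Finset (Pl K))).Finite := Finset.finite_toSet _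
  refine Set.Finite.subset (hfin.image fun t => (ch D.toRD0 t.1 t.2.1 t.2.2.1, t.2.2.2)) ?_
  rintro ⟨χ, q⟩ ⟨h1, h2, h3⟩
  have hft : FT χ := ((ba_ch χ).1 h1).1
  obtain ⟨u, hu, a, b, hab, rfl⟩ := ka_ex hω D.toRD0 hU χ hft
  have hrf := ka_rf hω D.toRD0 Q (hU.tu u hu) hab
  have hle : a ∪ b ⊆ rf Q S (ch D.toRD0 u a b) := by
    rw [← hrf, ba_sd Q hsub hft]
    exact Finset.sdiff_subset
  have hr : (1 : ℝ) ≤ nr (rf Q S (ch D.toRD0 u a b)) := one_le_nr _
  have hq : (1 : ℝ) ≤ nr q := one_le_nr _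
  have h4 : nr (rf Q S (ch D.toRD0 u a b)) ≤ X := by nlinarith
  have h5 : nr q ≤ X := by nlinarith
  refine ⟨(u, a, b, q), ?_, rfl⟩
  rw [Finset.mem_coe, Finset.mem_product, Finset.mem_product, Finset.mem_product, mem_AF, mem_AF,
    mem_AF]
  exact ⟨hu, (nr_mono (Finset.subset_union_left.trans hle)).trans h4,
    (nr_mono (Finset.subset_union_right.trans hle)).trans h4, h5⟩

private theorem pf_pos (z : (Gal(QBar/K) →* Multiplicative (ZMod 3)) × Finset (Pl K)) :
    (0 : ℝ) ≤ (3 : ℝ) ^ z.2.card := by positivity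

theorem ws_nn (A : Set ((Gal(QBar/K) →* Multiplicative (ZMod 3)) × Finset (Pl K))) :
    0 ≤ ws A := by
  unfold ws
  exact finsum_nonneg fun z => finsum_nonneg fun _ => pf_pos z

private theorem pf_ws {A : Set ((Gal(QBar/K) →* Multiplicative (ZMod 3)) × Finset (Pl K))}
    (hA : A.Finite) : ws A = ∑ z ∈ hA.toFinset, (3 : ℝ) ^ z.2.card := by
  unfold ws
  exact finsum_mem_eq_finite_toFinset_sum _ hA

theorem ws_mono {A B : Set ((Gal(QBar/K) →* Multiplicative (ZMod 3)) × Finset (Pl K))}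
    (hB : B.Finite) (h : A ⊆ B) : ws A ≤ ws B := by
  rw [pf_ws hB, pf_ws (hB.subset h)]
  refine Finset.sum_le_sum_of_subset_of_nonneg ?_ fun z _ _ => pf_pos z
  intro z hz
  rw [Set.Finite.mem_toFinset] at hz ⊢
  exact h hz

theorem ws_add {A B : Set ((Gal(QBar/K) →* Multiplicative (ZMod 3)) × Finset (Pl K))}
    (hA : A.Finite) (hB : B.Finite) (h : Disjoint A B) : ws (A ∪ B) = ws A + ws B := by
  unfold ws
  exact finsum_mem_union h hA hB

end H38.MT
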