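import Pool.Agent.H38.MT.BA
import Pool.Agent.H38.MT.PF

/-!
# [H38 MT DC] splitting off the primes of `S0`, 90-140 lines. File Pool/Agent/H38/MT/DC.lean

`S ⊆ S'`, `R` representatives of the types at `S'`. Then `ws (PG Q S S' χ₁ X)` is the sum over `χ₂ ∈ R` and the subsets `s` of `S' ∖ S` with `Teq S Q χ₂ χ₁` and `Spt Q χ₂ l` for `l ∈ s` of `3 ^ #s * ws (GP Q S' χ₂ (X / (nr s * nr (rf Q S χ₂ ∩ S'))))`.

Proof. The map `(χ, q) ↦ (χ₂, q ∩ S', (χ, q ∖ S'))`, `χ₂ ∈ R` the representative of the type of `χ` at `S'`, is a bijection from `PG Q S S' χ₁ X` onto the triples `(χ₂, s, (χ, q'))` with `χ₂ ∈ R`, `s ⊆ S' ∖ S`, the two conditions, and `(χ, q') ∈ GP Q S' χ₂ (X / ..)`; the inverse is `(χ, s ∪ q')`, and `3 ^ #(s ∪ q') = 3 ^ #s * 3 ^ #q'` (`s ⊆ S'` and `q'` outside `S'` are disjoint).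
* `Teq S' Q χ χ₂` implies `Teq S Q χ χ₂` (`S ⊆ S'`), so `Teq S Q χ χ₁ ↔ Teq S Q χ₂ χ₁`.
* for `l ∈ s ⊆ S'`: `Spt Q χ l ↔ Spt Q χ₂ l` (`ba_ts`).
* `rf Q S' χ = rf Q S χ \ S'` (`ba_sd`), `rf Q S χ ∩ S' = rf Q S χ₂ ∩ S'` (`ba_tr`), so `nr (rf Q S χ) = nr (rf Q S χ₂ ∩ S') * nr (rf Q S' χ)` (`nr_union`), and `nr (rf Q S χ) * nr (s ∪ q') ≤ X ↔ nr (rf Q S' χ) * nr q' ≤ X / (nr s * nr (rf Q S χ₂ ∩ S'))` (all `nr ≥ 1`: `one_le_nr`; `le_div_iff₀`).
* the prime norm condition: the elements of `rf Q S χ ∪ q` outside `S'` are those of `rf Q S' χ ∪ q'`.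
Use `pr_fin` for the finiteness of all sets, `finsum_mem_eq_finite_toFinset_sum`, and split the sum over the finite set `PG` by the fibres of the map to `(χ₂, s)` (`Finset.sum_fiberwise_of_maps_to` or `Finset.sum_product'`); the map to `χ₂`: choose it by `hR`.
-/

set_option autoImplicit false

open scoped NumberField Classical
open IsDedekindDomain H38.ML H63.MA H38.BB H48.KV H48.T3

noncomputable section

namespace H38.MT

variable {K : IntermediateField ℚ QBar} [NumberField K] {ω : K}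

private theorem dc_symm {S : Finset (Pl K)} {Q : DP K QBar}
    {χ χ' : Gal(QBar/K) →* Multiplicative (ZMod 3)} (h : Teq S Q χ χ') : Teq S Q χ' χ :=
  fun v hv σ hσ => (h v hv σ hσ).symm

private theorem dc_trans {S : Finset (Pl K)} {Q : DP K QBar}
    {χ χ' χ'' : Gal(QBar/K) →* Multiplicative (ZMod 3)} (h : Teq S Q χ χ') (h' : Teq S Q χ' χ'') :
    Teq S Q χ χ'' :=
  fun v hv σ hσ => (h v hv σ hσ).trans (h' v hv σ hσ)

private theorem dc_mono {S S' : Finset (Pl K)} (hS : S ⊆ S') {Q : DP K QBar}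
    {χ χ' : Gal(QBar/K) →* Multiplicative (ZMod 3)} (h : Teq S' Q χ χ') : Teq S Q χ χ' :=
  fun v hv σ hσ => h v (hS hv) σ hσ

private theorem dc_key (Q : DP K QBar) {S S' : Finset (Pl K)} (hS : S ⊆ S')
    {χ χ₁ χ₂ : Gal(QBar/K) →* Multiplicative (ZMod 3)} (hχ : FT χ) (hχ₂ : FT χ₂)
    (ht : Teq S' Q χ χ₂) (hC : Teq S Q χ₂ χ₁) {s q : Finset (Pl K)} (hs : s ⊆ S' \ S)
    (hsp : ∀ l ∈ s, Spt Q χ₂ l) (hq : ∀ l ∈ q, l ∉ S') (X : ℝ) :
    (χ, s ∪ q) ∈ PG Q S S' χ₁ X ↔ (χ, q) ∈ GP Q S' χ₂ (X / (nr s * nr (rf Q S χ₂ ∩ S'))) := by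
  have hdj : Disjoint s q := by
    rw [Finset.disjoint_left]
    intro l hl hlq
    exact hq l hlq (Finset.mem_sdiff.1 (hs hl)).1
  have ha := ba_sd Q hS hχ
  have hb := ba_tr Q (S := S) hχ hχ₂ ht
  have hc : nr (rf Q S χ) = nr (rf Q S χ₂ ∩ S') * nr (rf Q S' χ) := by
    rw [← hb, ha, ← nr_union]
    · congr 1
      rw [Finset.union_comm, Finset.sdiff_union_inter]
    · rw [Finset.disjoint_left]
      intro l hl hl'
      exact (Finset.mem_sdiff.1 hl').2 (Finset.mem_inter.1 hl).2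
  have hpos : 0 < nr s * nr (rf Q S χ₂ ∩ S') := by
    have h1 := one_le_nr s
    have h2 := one_le_nr (rf Q S χ₂ ∩ S')
    positivity
  have hineq : nr (rf Q S χ) * nr (s ∪ q) ≤ X ↔
      nr (rf Q S' χ) * nr q ≤ X / (nr s * nr (rf Q S χ₂ ∩ S')) := by
    rw [le_div_iff₀ hpos, hc, nr_union hdj]
    have e : nr (rf Q S χ₂ ∩ S') * nr (rf Q S' χ) * (nr s * nr q) =
        nr (rf Q S' χ) * nr q * (nr s * nr (rf Q S χ₂ ∩ S')) := by ring
    rw [e]
  constructor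
  · rintro ⟨⟨h1, h2, h3⟩, h4, h5⟩
    refine ⟨⟨h1, fun l hl => ⟨hq l hl, (h2 l (Finset.mem_union_right _ hl)).2⟩, hineq.1 h3⟩, ht,
      fun l hl => ?_⟩
    rw [Finset.mem_union] at hl
    rcases hl with hl | hl
    · have hl2 : l ∈ rf Q S χ \ S' := by
        rw [← ha]
        exact hl
      rw [Finset.mem_sdiff] at hl2
      exact h5 l (Finset.mem_union_left _ hl2.1) hl2.2
    · exact h5 l (Finset.mem_union_right _ (Finset.mem_union_right _ hl)) (hq l hl)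
  · rintro ⟨⟨h1, h2, h3⟩, -, h5⟩
    refine ⟨⟨h1, fun l hl => ?_, hineq.2 h3⟩, dc_trans (dc_mono hS ht) hC, fun l hl hlS => ?_⟩
    · have hl' := Finset.mem_union.1 hl
      rcases hl' with hl' | hl'
      · have h6 := Finset.mem_sdiff.1 (hs hl')
        exact ⟨h6.2, (ba_ts Q ht h6.1).2 (hsp l hl')⟩
      · exact ⟨fun h => hq l hl' (hS h), (h2 l hl').2⟩
    · have hl' := Finset.mem_union.1 hl
      rcases hl' with hl' | hl'
      · refine h5 l (Finset.mem_union_left _ ?_)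
        rw [ha, Finset.mem_sdiff]
        exact ⟨hl', hlS⟩
      · have hl'' := Finset.mem_union.1 hl'
        rcases hl'' with hl'' | hl''
        · exact absurd (Finset.mem_sdiff.1 (hs hl'')).1 hlS
        · exact h5 l (Finset.mem_union_right _ hl'')

theorem dc (hω : IsPrimitiveRoot ω 3) (Q : DP K QBar) (S S' : Finset (Pl K)) (hS : S ⊆ S')
    (χ₁ : Gal(QBar/K) →* Multiplicative (ZMod 3))
    (R : Finset (Gal(QBar/K) →* Multiplicative (ZMod 3))) (hR : ∀ χ ∈ R, FT χ)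
    (hR1 : ∀ χ : Gal(QBar/K) →* Multiplicative (ZMod 3), FT χ → ∃ χ' ∈ R, Teq S' Q χ χ')
    (hR2 : ∀ χ ∈ R, ∀ χ' ∈ R, Teq S' Q χ χ' → χ = χ') (X : ℝ) :
    ws (PG Q S S' χ₁ X) = ∑ χ₂ ∈ R, ∑ s ∈ (S' \ S).powerset,
      if Teq S Q χ₂ χ₁ ∧ ∀ l ∈ s, Spt Q χ₂ l then
        (3 : ℝ) ^ s.card * ws (GP Q S' χ₂ (X / (nr s * nr (rf Q S χ₂ ∩ S')))) else 0 := by
  have hA : (PG Q S S' χ₁ X).Finite := (pr_fin hω Q S X).subset fun z hz => hz.1
  have hB : ∀ (χ₂ : Gal(QBar/K) →* Multiplicative (ZMod 3)) (Y : ℝ), (GP Q S' χ₂ Y).Finite :=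
    fun χ₂ Y => (pr_fin hω Q S' Y).subset fun z hz => hz.1
  have hex : ∀ χ : Gal(QBar/K) →* Multiplicative (ZMod 3),
      ∃ χ' : Gal(QBar/K) →* Multiplicative (ZMod 3), FT χ → χ' ∈ R ∧ Teq S' Q χ χ' := by
    intro χ
    by_cases h : FT χ
    · obtain ⟨χ', h1, h2⟩ := hR1 χ h
      exact ⟨χ', fun _ => ⟨h1, h2⟩⟩
    · exact ⟨1, fun h' => absurd h' h⟩
  choose ρ hρ using hex
  rw [← Finset.sum_product']
  unfold ws
  rw [finsum_mem_eq_finite_toFinset_sum _ hA]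
  rw [← Finset.sum_fiberwise_of_maps_to
    (g := fun z : (Gal(QBar/K) →* Multiplicative (ZMod 3)) × Finset (Pl K) => (ρ z.1, z.2 ∩ S'))
    (t := R ×ˢ (S' \ S).powerset)]
  swap
  · intro z hz
    rw [Set.Finite.mem_toFinset] at hz
    obtain ⟨⟨h1, h2, -⟩, -, -⟩ := hz
    rw [Finset.mem_product, Finset.mem_powerset]
    refine ⟨(hρ z.1 h1.1).1, fun l hl => ?_⟩
    have hl' := Finset.mem_inter.1 hl
    exact Finset.mem_sdiff.2 ⟨hl'.2, (h2 l hl'.1).1⟩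
  refine Finset.sum_congr rfl fun p hp => ?_
  obtain ⟨χ₂, s⟩ := p
  rw [Finset.mem_product, Finset.mem_powerset] at hp
  obtain ⟨hχ₂, hs⟩ := hp
  simp only at hχ₂ hs
  simp only
  -- membership in the fibre
  have hfib : ∀ z : (Gal(QBar/K) →* Multiplicative (ZMod 3)) × Finset (Pl K),
      z ∈ PG Q S S' χ₁ X → ρ z.1 = χ₂ → z.2 ∩ S' = s → FT z.1 ∧ Teq S' Q z.1 χ₂ ∧
        Teq S Q χ₂ χ₁ ∧ ∀ l ∈ s, Spt Q χ₂ l := by
    rintro z ⟨⟨h1, h2, -⟩, h4, -⟩ h5 h6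
    have h7 := (hρ z.1 h1.1).2
    rw [h5] at h7
    refine ⟨h1.1, h7, dc_trans (dc_symm (dc_mono hS h7)) h4, fun l hl => ?_⟩
    rw [← h6, Finset.mem_inter] at hl
    exact (ba_ts Q h7 hl.2).1 (h2 l hl.1).2
  by_cases hC : Teq S Q χ₂ χ₁ ∧ ∀ l ∈ s, Spt Q χ₂ l
  · rw [if_pos hC]
    rw [finsum_mem_eq_finite_toFinset_sum _ (hB χ₂ (X / (nr s * nr (rf Q S χ₂ ∩ S')))),
      Finset.mul_sum]
    refine Finset.sum_bij' (fun z _ => (z.1, z.2 \ S')) (fun z _ => (z.1, s ∪ z.2)) ?_ ?_ ?_ ?_ ?_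
    · intro z hz
      rw [Finset.mem_filter, Set.Finite.mem_toFinset, Prod.mk.injEq] at hz
      obtain ⟨hz1, hz2, hz3⟩ := hz
      obtain ⟨hf, ht, -, -⟩ := hfib z hz1 hz2 hz3
      rw [Set.Finite.mem_toFinset]
      refine (dc_key Q hS hf (hR χ₂ hχ₂) ht hC.1 hs hC.2
        (fun l hl => (Finset.mem_sdiff.1 hl).2) X).1 ?_
      have e : s ∪ z.2 \ S' = z.2 := by
        rw [← hz3, Finset.union_comm, Finset.sdiff_union_inter]
      rw [e]
      exact hz1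
    · intro z hz
      rw [Set.Finite.mem_toFinset] at hz
      have hz' := hz
      obtain ⟨⟨h1, h2, -⟩, h4, -⟩ := hz'
      rw [Finset.mem_filter, Set.Finite.mem_toFinset, Prod.mk.injEq]
      refine ⟨(dc_key Q hS h1.1 (hR χ₂ hχ₂) h4 hC.1 hs hC.2 (fun l hl => (h2 l hl).1) X).2 hz,
        ?_, ?_⟩
      · exact hR2 _ (hρ z.1 h1.1).1 _ hχ₂ (dc_trans (dc_symm (hρ z.1 h1.1).2) h4)
      · ext l
        rw [Finset.mem_inter, Finset.mem_union]
        constructor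
        · rintro ⟨h | h, h'⟩
          · exact h
          · exact absurd h' (h2 l h).1
        · intro h
          exact ⟨Or.inl h, (Finset.mem_sdiff.1 (hs h)).1⟩
    · intro z hz
      rw [Finset.mem_filter, Set.Finite.mem_toFinset, Prod.mk.injEq] at hz
      obtain ⟨-, -, hz3⟩ := hz
      refine Prod.ext rfl ?_
      change s ∪ z.2 \ S' = z.2
      rw [← hz3, Finset.union_comm, Finset.sdiff_union_inter]
    · intro z hz
      rw [Set.Finite.mem_toFinset] at hz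
      obtain ⟨⟨-, h2, -⟩, -, -⟩ := hz
      refine Prod.ext rfl ?_
      change (s ∪ z.2) \ S' = z.2
      ext l
      rw [Finset.mem_sdiff, Finset.mem_union]
      constructor
      · rintro ⟨h | h, h'⟩
        · exact absurd (Finset.mem_sdiff.1 (hs h)).1 h'
        · exact h
      · intro h
        exact ⟨Or.inr h, (h2 l h).1⟩
    · intro z hz
      rw [Finset.mem_filter, Set.Finite.mem_toFinset, Prod.mk.injEq] at hz
      obtain ⟨-, -, hz3⟩ := hz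
      change (3 : ℝ) ^ z.2.card = 3 ^ s.card * 3 ^ (z.2 \ S').card
      rw [← pow_add, ← hz3, add_comm, Finset.card_sdiff_add_card_inter]
  · rw [if_neg hC]
    refine Finset.sum_eq_zero fun z hz => ?_
    rw [Finset.mem_filter, Set.Finite.mem_toFinset, Prod.mk.injEq] at hz
    obtain ⟨hz1, hz2, hz3⟩ := hz
    exact absurd (hfib z hz1 hz2 hz3).2.2 hC

end H38.MT
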