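import Pool.Agent.H38.MT.BA
import Pool.Agent.H38.AS.PDef
import Pool.Agent.H63.MA.GUpA

/-!
# [H38 MT KA] the characters of order 3 by Kummer theory, 100-160 lines. File Pool/Agent/H38/MT/KA.lean

`D : RD0 K 3 ω`, `ω` a primitive cube root of unity of `K`, `U` representatives of the `S0`-units modulo cubes. Every `χ : Γ → C₃` of finite type is `ch D u a b` for a unique `u ∈ U` and unique disjoint finite sets `a, b` of primes outside `S0`, and `a ∪ b` is the set of the ramified primes outside `S0`.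

Proof. `ka_ord`: `D.pi_self`, `D.pi_ne`, `ord_mul`, `ord_prod`, `ord_pow`. `ka_ft`: `kc_is` (`H63/MA/GKum.lean`), first component.
`ka_rf`: let `v ∉ S0`. `lds_of` (`H38/AS/PDef.lean`) gives local data `L` with `(L.ld v hv).P = Q.P v`; `ld_kk`: `kk x τ = ord v x * kk (pi v) τ` for `τ` in the inertia group, `ld_kk_t`: `kk x t = ord v x` for `t = (L.ld v hv).t`, which is in the inertia group. So `ch` is nontrivial on the inertia group iff `ord v x ≠ 0` in `ZMod 3`, i.e. iff `v ∈ a ∪ b` (orders 1, 2, else 0). `kk` is `Multiplicative.toAdd` of `kc`.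
`ka_ex`: `kc_all` (`H63/MA/GKus.lean`) gives `χ = kc x`. `a` = the set of the `v ∉ S0` with `ord v x = 1` in `ZMod 3`, `b` = those with `ord v x = 2` (finite: `finite_ord`). `x / (∏_{a} pi ∏_{b} pi^2)` has orders divisible by 3 outside `S0`: `unit_of_ord` (`H63/MA/GUpA.lean`) gives `u₀ * y ^ 3`, `hU.ex` gives `u₀ = u * z ^ 3`. `kk` of a cube is `0` (`kk_zpow_arg`, `kk_mul_arg`), so `kc x = kc (xx D u a b)` (`MonoidHom.ext`).
`ka_inj`: `kk (xx) = kk (xx')` everywhere, so `xx / xx'` is a cube (`kk_eq_zero_iff`, `kk_mul_arg`); compare the orders modulo 3 outside `S0` (`ka_ord`): `a = a'`, `b = b'`; then `u / u'` is a cube: `hU.un`.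
`ka_one`: `kk_eq_zero_iff`.
-/

set_option autoImplicit false

open scoped NumberField Classical
open IsDedekindDomain H38.ML H63.MA H38.BB H48.KV H48.T3

noncomputable section

namespace H38.MT

variable {K : IntermediateField ℚ QBar} [NumberField K] {ω : K}

private theorem ka_p3 : Nat.Prime 3 := Nat.prime_three

private theorem ka_zm (n : ℤ) : ((n : ℤ) : ZMod 3) = 0 ↔ (3 : ℤ) ∣ n := by
  have h := ZMod.intCast_zmod_eq_zero_iff_dvd n 3
  exact_mod_cast h

private theorem ka_o (D : RD0 K 3 ω) {a : Finset (Pl K)} (ha : ∀ v ∈ a, v ∉ D.S0) (v : Pl K)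
    (hv : v ∉ D.S0) : ord v (∏ w ∈ a, D.pi w) = if v ∈ a then 1 else 0 := by
  rw [ord_prod]
  by_cases h : v ∈ a
  · rw [if_pos h, Finset.sum_eq_single v]
    · exact D.pi_self v hv
    · intro w hw hne
      exact D.pi_ne w v (ha w hw) hv hne.symm
    · intro h'
      exact absurd h h'
  · rw [if_neg h]
    refine Finset.sum_eq_zero fun w hw => ?_
    refine D.pi_ne w v (ha w hw) hv ?_
    rintro rfl
    exact h hw

private theorem ka_ord0 (D : RD0 K 3 ω) {a b : Finset (Pl K)}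
    (h : Ad D a b) (v : Pl K) (hv : v ∉ D.S0) :
    ord v ((∏ w ∈ a, D.pi w) * ∏ w ∈ b, D.pi w ^ 2) =
      (if v ∈ a then 1 else 0) + (if v ∈ b then 2 else 0) := by
  rw [Finset.prod_pow, ord_mul, ord_pow, ka_o D h.2.1 v hv, ka_o D h.2.2 v hv]
  by_cases h2 : v ∈ b
  · rw [if_pos h2, if_pos h2]
    norm_num
  · rw [if_neg h2, if_neg h2]
    norm_num

theorem ka_ft (hω : IsPrimitiveRoot ω 3) (D : RD0 K 3 ω) (u : Kˣ) (a b : Finset (Pl K)) :
    FT (ch D u a b) :=
  (kc_is ka_p3 hω (xx D u a b)).1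

theorem ka_ord (D : RD0 K 3 ω) {u : Kˣ} (hu : TUnit D.S0 u) {a b : Finset (Pl K)}
    (h : Ad D a b) (v : Pl K) (hv : v ∉ D.S0) :
    ord v (xx D u a b) = (if v ∈ a then 1 else 0) + (if v ∈ b then 2 else 0) := by
  rw [xx, ord_mul, hu v hv, zero_add, ka_ord0 D h v hv]

theorem ka_rf (hω : IsPrimitiveRoot ω 3) (D : RD0 K 3 ω) (Q : DP K QBar) {u : Kˣ}
    (hu : TUnit D.S0 u) {a b : Finset (Pl K)} (h : Ad D a b) :
    rf Q D.S0 (ch D u a b) = a ∪ b := by
  obtain ⟨L, hL⟩ := H38.AS.lds_of ka_p3 hω D Q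
  ext v
  rw [ba_mem Q D.S0 (ka_ft hω D u a b), Finset.mem_union]
  constructor
  · rintro ⟨hv, σ, hσ, hne⟩
    by_contra hcon
    rw [not_or] at hcon
    apply hne
    have hσ' : σ ∈ (L.ld v hv).P.inertia Gal(QBar/K) := by
      rw [hL v hv]
      exact hσ
    have h1 := ld_kk ka_p3 hω (fun h => hv (D.above v h)) (D.pi_self v hv) (L.ld v hv) σ hσ'
      (xx D u a b)
    rw [ka_ord D hu h v hv, if_neg hcon.1, if_neg hcon.2, add_zero, Int.cast_zero, zero_mul] at h1
    exact Multiplicative.toAdd.injective h1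
  · intro hab
    have hv : v ∉ D.S0 := hab.elim (h.2.1 v) (h.2.2 v)
    refine ⟨hv, (L.ld v hv).t, ?_, ?_⟩
    · have h1 := (L.ld v hv).ht
      rw [hL v hv] at h1
      exact h1
    · intro h0
      have h1 := ld_kk_t ka_p3 hω (fun h => hv (D.above v h)) (D.pi_self v hv) (L.ld v hv)
        (xx D u a b)
      have h2 : kk 3 ω (xx D u a b) (L.ld v hv).t = 0 := congrArg Multiplicative.toAdd h0
      rw [h2, ka_ord D hu h v hv] at h1
      have h3 := (ka_zm _).1 h1.symm
      rcases hab with hab | hab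
      · have hb : v ∉ b := fun hb => Finset.disjoint_left.1 h.1 hab hb
        rw [if_pos hab, if_neg hb] at h3
        norm_num at h3
      · have ha : v ∉ a := fun ha => Finset.disjoint_left.1 h.1 ha hab
        rw [if_neg ha, if_pos hab] at h3
        norm_num at h3

private theorem ka_eq (hω : IsPrimitiveRoot ω 3) {x y z : Kˣ} (h : x = y * z ^ 3) :
    kc 3 ω QBar x = kc 3 ω QBar y := by
  apply MonoidHom.ext
  intro σ
  have h5 : kk 3 ω x σ = kk 3 ω y σ := by
    rw [h, kk_mul_arg ka_p3 hω]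
    have h6 : kk 3 ω (z ^ 3) σ = 0 :=
      (kk_eq_zero_iff (Ω := QBar) ka_p3 hω (z ^ 3)).2 ⟨z, rfl⟩ σ
    rw [h6, add_zero]
  exact Multiplicative.toAdd.injective h5

theorem ka_ex (hω : IsPrimitiveRoot ω 3) (D : RD0 K 3 ω) {U : Finset Kˣ} (hU : UR D U)
    (χ : Gal(QBar/K) →* Multiplicative (ZMod 3)) (hχ : FT χ) :
    ∃ u ∈ U, ∃ a b, Ad D a b ∧ χ = ch D u a b := by
  obtain ⟨x, hx⟩ := kc_all ka_p3 hω χ hχ
  have hfin := finite_ord x
  obtain ⟨a, ha⟩ : ∃ a : Finset (Pl K), a = hfin.toFinset.filter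
    (fun v => v ∉ D.S0 ∧ ord v x % 3 = 1) := ⟨_, rfl⟩
  obtain ⟨b, hb⟩ : ∃ b : Finset (Pl K), b = hfin.toFinset.filter
    (fun v => v ∉ D.S0 ∧ ord v x % 3 = 2) := ⟨_, rfl⟩
  have ha' : ∀ v, v ∈ a ↔ v ∉ D.S0 ∧ ord v x % 3 = 1 := by
    intro v
    rw [ha, Finset.mem_filter, Set.Finite.mem_toFinset]
    constructor
    · exact fun h => h.2
    · refine fun h => ⟨?_, h⟩
      intro h0
      rw [h0] at h
      exact absurd h.2 (by norm_num)
  have hb' : ∀ v, v ∈ b ↔ v ∉ D.S0 ∧ ord v x % 3 = 2 := by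
    intro v
    rw [hb, Finset.mem_filter, Set.Finite.mem_toFinset]
    constructor
    · exact fun h => h.2
    · refine fun h => ⟨?_, h⟩
      intro h0
      rw [h0] at h
      exact absurd h.2 (by norm_num)
  have hab : Ad D a b := by
    refine ⟨?_, fun v hv => ((ha' v).1 hv).1, fun v hv => ((hb' v).1 hv).1⟩
    rw [Finset.disjoint_left]
    intro v h1 h2
    have h3 := ((ha' v).1 h1).2
    have h4 := ((hb' v).1 h2).2
    omega
  obtain ⟨g, hg⟩ : ∃ g : Kˣ, g = (∏ w ∈ a, D.pi w) * ∏ w ∈ b, D.pi w ^ 2 := ⟨_, rfl⟩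
  obtain ⟨u₀, y, hu₀, hy⟩ := unit_of_ord ka_p3 D (x * g⁻¹) (by
    intro v hv
    rw [ord_mul, ord_inv, hg, ka_ord0 D hab v hv]
    by_cases h1 : v ∈ a
    · have h2 : v ∉ b := fun h2 => Finset.disjoint_left.1 hab.1 h1 h2
      rw [if_pos h1, if_neg h2]
      have h3 := ((ha' v).1 h1).2
      push_cast
      omega
    · by_cases h2 : v ∈ b
      · rw [if_neg h1, if_pos h2]
        have h3 := ((hb' v).1 h2).2
        push_cast
        omega
      · rw [if_neg h1, if_neg h2]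
        have h3 : ord v x % 3 ≠ 1 := fun h => h1 ((ha' v).2 ⟨hv, h⟩)
        have h4 : ord v x % 3 ≠ 2 := fun h => h2 ((hb' v).2 ⟨hv, h⟩)
        push_cast
        omega)
  obtain ⟨u, hu, z, hz⟩ := hU.ex u₀ hu₀
  refine ⟨u, hu, a, b, hab, ?_⟩
  rw [hx, ch]
  refine ka_eq hω (z := z * y) ?_
  rw [xx, ← hg]
  have h1 : x = u₀ * y ^ 3 * g := by rw [← hy, inv_mul_cancel_right]
  rw [h1, hz, mul_pow, mul_assoc u, mul_right_comm]

theorem ka_one (hω : IsPrimitiveRoot ω 3) (D : RD0 K 3 ω) (u : Kˣ) (a b : Finset (Pl K)) :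
    ch D u a b = 1 ↔ IsPow 3 (xx D u a b) := by
  rw [← kk_eq_zero_iff (Ω := QBar) ka_p3 hω]
  constructor
  · intro h σ
    have h1 := DFunLike.congr_fun h σ
    exact congrArg Multiplicative.toAdd h1
  · intro h
    apply MonoidHom.ext
    intro σ
    exact Multiplicative.toAdd.injective (h σ)

theorem ka_inj (hω : IsPrimitiveRoot ω 3) (D : RD0 K 3 ω) {U : Finset Kˣ} (hU : UR D U)
    {u u' : Kˣ} (hu : u ∈ U) (hu' : u' ∈ U) {a b a' b' : Finset (Pl K)} (h : Ad D a b)
    (h' : Ad D a' b') (he : ch D u a b = ch D u' a' b') : u = u' ∧ a = a' ∧ b = b' := by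
  have h1 : ∀ σ : Gal(QBar/K), kk 3 ω (xx D u a b * (xx D u' a' b')⁻¹) σ = 0 := by
    intro σ
    have h2 := DFunLike.congr_fun he σ
    have h3 : kk 3 ω (xx D u a b) σ = kk 3 ω (xx D u' a' b') σ :=
      congrArg Multiplicative.toAdd h2
    have h4 := kk_mul_arg ka_p3 hω (xx D u a b * (xx D u' a' b')⁻¹) (xx D u' a' b') σ
    rw [inv_mul_cancel_right, h3] at h4
    exact left_eq_add.1 ((h4.trans (add_comm _ _)))
  obtain ⟨y, hy⟩ := (kk_eq_zero_iff (Ω := QBar) ka_p3 hω _).1 h1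
  have h2 : xx D u a b = xx D u' a' b' * y ^ 3 := by
    rw [hy]
    rw [mul_comm (xx D u a b), mul_inv_cancel_left]
  have h3 : ∀ v, v ∉ D.S0 → ((v ∈ a ↔ v ∈ a') ∧ (v ∈ b ↔ v ∈ b')) := by
    intro v hv
    have h4 := congrArg (ord v) h2
    rw [ord_mul, ord_pow, ka_ord D (hU.tu u hu) h v hv, ka_ord D (hU.tu u' hu') h' v hv] at h4
    have h5 : v ∈ a → v ∉ b := fun h1 h2 => Finset.disjoint_left.1 h.1 h1 h2
    have h6 : v ∈ a' → v ∉ b' := fun h1 h2 => Finset.disjoint_left.1 h'.1 h1 h2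
    push_cast at h4
    by_cases c1 : v ∈ a
    · have c2 := h5 c1
      rw [if_pos c1, if_neg c2] at h4
      by_cases c3 : v ∈ a'
      · exact ⟨⟨fun _ => c3, fun _ => c1⟩, ⟨fun h => absurd h c2, fun h => absurd h (h6 c3)⟩⟩
      · exfalso
        rw [if_neg c3] at h4
        by_cases c4 : v ∈ b'
        · rw [if_pos c4] at h4
          omega
        · rw [if_neg c4] at h4
          omega
    · by_cases c2 : v ∈ b
      · rw [if_neg c1, if_pos c2] at h4
        by_cases c4 : v ∈ b'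
        · exact ⟨⟨fun h => absurd h c1, fun h => absurd c4 (h6 h)⟩,
            ⟨fun _ => c4, fun _ => c2⟩⟩
        · exfalso
          rw [if_neg c4] at h4
          by_cases c3 : v ∈ a'
          · rw [if_pos c3] at h4
            omega
          · rw [if_neg c3] at h4
            omega
      · rw [if_neg c1, if_neg c2] at h4
        by_cases c3 : v ∈ a'
        · exfalso
          rw [if_pos c3, if_neg (h6 c3)] at h4
          omega
        · by_cases c4 : v ∈ b'
          · exfalso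
            rw [if_neg c3, if_pos c4] at h4
            omega
          · exact ⟨⟨fun h => absurd h c1, fun h => absurd h c3⟩,
              ⟨fun h => absurd h c2, fun h => absurd h c4⟩⟩
  have ha : a = a' := by
    ext v
    by_cases hv : v ∈ D.S0
    · exact ⟨fun h1 => absurd hv (h.2.1 v h1), fun h1 => absurd hv (h'.2.1 v h1)⟩
    · exact (h3 v hv).1
  have hb : b = b' := by
    ext v
    by_cases hv : v ∈ D.S0
    · exact ⟨fun h1 => absurd hv (h.2.2 v h1), fun h1 => absurd hv (h'.2.2 v h1)⟩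
    · exact (h3 v hv).2
  refine ⟨?_, ha, hb⟩
  refine hU.un u hu u' hu' y ?_
  rw [xx, xx, ha, hb, mul_right_comm] at h2
  exact mul_right_cancel h2

end H38.MT
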