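import Pool.Agent.H38.MT.Defs
import Pool.Agent.H63.MA.GFrob
import Pool.Agent.H38.AS.GQb

/-!
# [H38 MT KB] split primes and the residue symbol; types and classes, 60-100 lines. File Pool/Agent/H38/MT/KB.lean

* `kb_sp`: for `l ∉ S0` and `ord l x = 0`: the Kummer character of `x` is trivial on the decomposition group of `Q.P l` iff `D.LL l x = 0`.
  Proof. `D.LL l x = lg 3 ω l x` (unfold, `ord l x = 0`, `zpow_zero`, `mul_one`); `l` is not above 3 (`D.above`). `→`: `gfrob_ex` (`H63/MA/GFrob.lean`) for `Q.P l` gives `F` with `F • y - y ^ nm l ∈ P` for all `y : 𝓞 QBar`; `F` is in `dec`: `F • y ∈ P ↔ y ^ nm l ∈ P ↔ y ∈ P` (`P` prime, `nm l ≠ 0`). `gfrob_unit`: `kk 3 ω x F = lg 3 ω l x`, so `lg = 0`.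
  `←`: `Spl 3 ω l x`: `B_unit` (`H63/MA/SymC.lean`: `B v c x = ord v x * lg v c` for `ord v c = 0`) and `lg = 0`. Then as in the proof of `ps_triv` (`H63/MC/CLkC.lean`): `spl_iff` gives `y` with `One1 l (x * (y ^ 3)⁻¹)`, the valuation of `3` at `l` is `1`, `cl_of_val`, `cl_kk`, `kk_mul_arg`, `kk_zpow_arg`.
* `kc_teq`: if `qf a = qf a'` and `qf b = qf b'` then `ch u a b` and `ch u a' b'` agree on the decomposition groups at `S0`. Proof: `kk (xx D u a b) σ = kk u σ + ∑_{v ∈ a} kk (pi v) σ + 2 ∑_{v ∈ b} kk (pi v) σ` (`kk_mul_arg`, `kk_prod_arg`, `kk_zpow_arg` in `H63/MA/GKum.lean`), and `xq_fin` (`H38/AS/GQb.lean`): `∑_{v ∈ n} kk (pi v) σ = kk (xq D (qf D n)) σ` there.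
  `MOne 3 K` is `mone_odd Nat.prime_three (by norm_num) K`. `kk` is `Multiplicative.toAdd` of `kc`.
-/

set_option autoImplicit false

open scoped NumberField Classical
open IsDedekindDomain H38.ML H63.MA H38.BB H48.KV H48.T3

noncomputable section

namespace H38.MT

variable {K : IntermediateField ℚ QBar} [NumberField K] {ω : K}

private theorem kb_p3 : Nat.Prime 3 := Nat.prime_three

private theorem kb_ne (Q : DP K QBar) (v : Pl K) : Q.P v ≠ ⊥ := by
  intro h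
  have h1 := Q.under v
  rw [h] at h1
  apply v.ne_bot
  rw [← h1]
  have hinj : Function.Injective (algebraMap (𝓞 K) (𝓞 QBar)) :=
    NumberField.RingOfIntegers.algebraMap.injective K QBar
  rw [Ideal.under, ← RingHom.ker_eq_comap_bot, (RingHom.injective_iff_ker_eq_bot _).mp hinj]

/-- a local cube away from 3 has trivial Kummer character on the decomposition group -/
private theorem kb_triv (hω : IsPrimitiveRoot ω 3) (Q : DP K QBar) (s : Kˣ) (v : Pl K)
    (ha : ¬ Above 3 v) (hs : Spl 3 ω v s) (σ : Gal(QBar/K))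
    (hσ : σ ∈ dec (K := K) (Q.P v)) : kk 3 ω s σ = 0 := by
  obtain ⟨y, hy⟩ := (spl_iff kb_p3 hω ha s).1 hs
  have h0 : v.valuation K (((s * (y ^ 3)⁻¹ : Kˣ) : K) - 1) <
      v.valuation K (((3 : ℕ) : K) ^ 2) := by
    have h1 : v.valuation K ((3 : ℕ) : K) = 1 := by
      apply le_antisymm
      · have h2 := v.valuation_le_one (K := K) ((3 : ℕ) : 𝓞 K)
        have h3 : ((((3 : ℕ) : 𝓞 K)) : K) = ((3 : ℕ) : K) := map_natCast (algebraMap (𝓞 K) K) 3
        exact le_trans (le_of_eq (congrArg (v.valuation K) h3.symm)) h2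
      · rw [← not_lt]
        intro h
        exact ha ((above_iff 3 v).2 h)
    rw [map_pow, h1, one_pow]
    exact hy
  have h1 := cl_of_val v (Q.P v) (Q.prime v) (Q.under v) (s * (y ^ 3)⁻¹) h0
  have h2 := cl_kk kb_p3 hω (Q.P v) (Q.prime v) (kb_ne Q v) (s * (y ^ 3)⁻¹) h1 σ hσ
  have h3 : s = s * (y ^ 3)⁻¹ * y ^ ((3 : ℕ) : ℤ) := by
    rw [zpow_natCast, inv_mul_cancel_right]
  rw [h3, kk_mul_arg kb_p3 hω, h2, kk_zpow_arg kb_p3 hω, zero_add, Int.cast_natCast,
    CharP.cast_eq_zero, zero_mul]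

theorem kb_sp (hω : IsPrimitiveRoot ω 3) (D : RD0 K 3 ω) (Q : DP K QBar) (x : Kˣ) (l : Pl K)
    (hl : l ∉ D.S0) (hx : ord l x = 0) : Spt Q (kc 3 ω QBar x) l ↔ D.LL l x = 0 := by
  have hlv : ¬ Above 3 l := fun h => hl (D.above l h)
  have hLL : D.LL l x = lg 3 ω l x := by
    unfold RD0.LL
    rw [hx, neg_zero, zpow_zero, mul_one]
  rw [hLL]
  constructor
  · intro h
    obtain ⟨F, hF⟩ := gfrob_ex (Q.P l) (Q.prime l) (Q.under l)
    have hnm : nm l ≠ 0 := (lt_trans Nat.zero_lt_one (one_lt_nm l)).ne'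
    have hdec : F ∈ dec (K := K) (Q.P l) := by
      intro y
      have h1 := hF y
      constructor
      · intro h2
        have h3 := (Q.P l).sub_mem h2 h1
        rw [sub_sub_cancel] at h3
        exact (Q.prime l).mem_of_pow_mem _ h3
      · intro h2
        have h3 := (Q.P l).add_mem h1 ((Q.P l).pow_mem_of_mem h2 (nm l)
          (Nat.pos_of_ne_zero hnm))
        rwa [sub_add_cancel] at h3
    rw [← gfrob_unit kb_p3 hω hlv (Q.P l) (Q.prime l) (Q.under l) F hF x hx]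
    exact congrArg Multiplicative.toAdd (h F hdec)
  · intro h σ hσ
    have hs : Spl 3 ω l x := by
      intro z
      rw [B_unit kb_p3 hω hlv hx, h, mul_zero]
    exact Multiplicative.toAdd.injective (kb_triv hω Q x l hlv hs σ hσ)

private theorem kb_val (hω : IsPrimitiveRoot ω 3) (D : RD0 K 3 ω) (u : Kˣ)
    (a b : Finset (Pl K)) (σ : Gal(QBar/K)) :
    kk 3 ω (xx D u a b) σ = kk 3 ω u σ + (∑ v ∈ a, kk 3 ω (D.pi v) σ +
      ((2 : ℤ) : ZMod 3) * ∑ v ∈ b, kk 3 ω (D.pi v) σ) := by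
  rw [xx, kk_mul_arg kb_p3 hω, kk_mul_arg kb_p3 hω, kk_prod_arg kb_p3 hω, Finset.prod_pow,
    ← kk_prod_arg kb_p3 hω b, ← kk_zpow_arg kb_p3 hω]
  rfl

theorem kc_teq (hω : IsPrimitiveRoot ω 3) (D : RD0 K 3 ω) (Q : DP K QBar) (u : Kˣ)
    {a b a' b' : Finset (Pl K)} (h : Ad D a b) (h' : Ad D a' b') (ha : qf D a = qf D a')
    (hb : qf D b = qf D b') : Teq D.S0 Q (ch D u a b) (ch D u a' b') := by
  intro v hv σ hσ
  have hm : MOne 3 K := mone_odd Nat.prime_three (by norm_num) K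
  have h1 := H38.AS.xq_fin kb_p3 hm hω D Q a h.2.1 v hv σ hσ
  have h2 := H38.AS.xq_fin kb_p3 hm hω D Q b h.2.2 v hv σ hσ
  have h3 := H38.AS.xq_fin kb_p3 hm hω D Q a' h'.2.1 v hv σ hσ
  have h4 := H38.AS.xq_fin kb_p3 hm hω D Q b' h'.2.2 v hv σ hσ
  have h5 : kk 3 ω (xx D u a b) σ = kk 3 ω (xx D u a' b') σ := by
    rw [kb_val hω, kb_val hω, ← h1, ← h2, ← h3, ← h4, ha, hb]
  exact Multiplicative.toAdd.injective h5

end H38.MT
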