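import Pool.Agent.H38.MT.Defs
import Pool.Agent.H38.AS.PDef

/-!
# [H38 MT RE] representatives of the types, 20-40 lines. File Pool/Agent/H38/MT/RE.lean

Proof. `lds_of` (`H38/AS/PDef.lean`) gives `L`; `hw_types` (`H63/MC/CHa.lean`) for `W = Multiplicative (ZMod 3)` (`w ^ 3 = 1`) gives a finite set of characters of finite type which represents all types at `D.S0`; `cfin_reps` (`H63/MC/CFin.lean`) with the equivalence relation `Teq D.S0 Q` thins it out.
-/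

set_option autoImplicit false

open scoped NumberField Classical
open IsDedekindDomain H38.ML H63.MA H38.BB H48.KV H48.T3

noncomputable section

namespace H38.MT

variable {K : IntermediateField ℚ QBar} [NumberField K] {ω : K}

theorem re (hω : IsPrimitiveRoot ω 3) (D : RD0 K 3 ω) (Q : DP K QBar) :
    ∃ R : Finset (Gal(QBar/K) →* Multiplicative (ZMod 3)), (∀ χ ∈ R, FT χ) ∧
      (∀ χ : Gal(QBar/K) →* Multiplicative (ZMod 3), FT χ → ∃ χ' ∈ R, Teq D.S0 Q χ χ') ∧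
      ∀ χ ∈ R, ∀ χ' ∈ R, Teq D.S0 Q χ χ' → χ = χ' := by
  have hW : ∀ w : Multiplicative (ZMod 3), w ^ 3 = 1 := by decide
  obtain ⟨L, -⟩ := H38.AS.lds_of (Ω := QBar) Nat.prime_three hω D Q
  obtain ⟨R, hR1, hR2⟩ := hw_types Nat.prime_three (mone_odd Nat.prime_three (by norm_num) K) hω D L Q hW
  obtain ⟨R', h1, h2, h3⟩ := cfin_reps
    (fun χ χ' : Gal(QBar/K) →* Multiplicative (ZMod 3) => Teq D.S0 Q χ χ') (fun a v _ σ _ => rfl)
    (fun a b h v hv σ hσ => (h v hv σ hσ).symm) (fun a b c h h' v hv σ hσ => (h v hv σ hσ).trans (h' v hv σ hσ)) R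
  refine ⟨R', fun χ hχ => hR1 χ (h1 hχ), fun χ hχ => ?_, h3⟩
  obtain ⟨χ₁, h4, h5⟩ := hR2 χ hχ
  obtain ⟨χ₂, h6, h7⟩ := h2 χ₁ h4
  exact ⟨χ₂, h6, fun v hv σ hσ => (h5 v hv σ hσ).trans (h7 v hv σ hσ)⟩

end H38.MT
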