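import Pool.Agent.H38.MT.TA
import Pool.Agent.H38.MT.DC
import Pool.Agent.H38.MT.RE
import Pool.Agent.H63.MC.CFin

/-!
# H38/MT/PL: the limit for the pairs with prime norms outside `S0` (assembly of TA, DC, RE, `sw_lim`)
-/

set_option autoImplicit false

open scoped NumberField Classical
open IsDedekindDomain H38.ML H63.MA H38.BB H38.AS H48.KV H48.T3 Filter Topology

noncomputable section

namespace H38.MT

variable {K : IntermediateField ℚ QBar} [NumberField K] {ω : K}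

private theorem pl_hh (D : RD0 K 3 ω) (Q : DP K QBar)
    (χ₂ : Gal(QBar/K) →* Multiplicative (ZMod 3)) (u : Kˣ) (q : Fin 3 → Fin D.r → ZMod 3) :
    |hh D Q χ₂ u q| ≤ 1 := by
  unfold hh
  split_ifs
  · rw [abs_one]
  · rw [abs_zero]
    exact zero_le_one

theorem gp_lim (hω : IsPrimitiveRoot ω 3) (D : RD K 3 ω) (Q : DP K QBar)
    (χ₂ : Gal(QBar/K) →* Multiplicative (ZMod 3)) :
    ∃ L : ℝ, Tendsto (fun X : ℝ => ws (GP Q D.S0 χ₂ X) / (X * Real.log X ^ 2)) atTop (𝓝 L) := by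
  obtain ⟨U, hU⟩ := exists_UR D.toRD0
  have h1 : ∀ u ∈ U, ∃ l : ℝ, Tendsto (fun X : ℝ =>
      SW D.toRD0 c3 (fun _ => u) ∅ (hh D.toRD0 Q χ₂ u) X / (X * Real.log X ^ 2)) atTop (𝓝 l) :=
    fun u hu => sw_lim Nat.prime_three (mone_odd Nat.prime_three (by norm_num) K) hω D c3
      (by norm_num) (fun _ => u) ⟨fun v hv => absurd hv (Finset.notMem_empty v),
        fun _ v hv _ => hU.tu u hu v hv⟩ (hh D.toRD0 Q χ₂ u) (pl_hh D.toRD0 Q χ₂ u)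
  choose! l hl using h1
  refine ⟨∑ u ∈ U, l u, ?_⟩
  refine (tendsto_finsetSum U fun u hu => hl u hu).congr fun X => ?_
  have h2 := ta hω D.toRD0 Q hU χ₂ X
  rw [← Finset.sum_div]
  exact congrArg (fun t => t / (X * Real.log X ^ 2)) h2.symm

theorem pg_lim (hω : IsPrimitiveRoot ω 3) (D : RD K 3 ω) (Q : DP K QBar) (S : Finset (Pl K))
    (hS : S ⊆ D.S0) (χ₁ : Gal(QBar/K) →* Multiplicative (ZMod 3)) :
    ∃ L : ℝ, Tendsto (fun X : ℝ => ws (PG Q S D.S0 χ₁ X) / (X * Real.log X ^ 2)) atTop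
      (𝓝 L) := by
  obtain ⟨R, hR, hR1, hR2⟩ := re hω D.toRD0 Q
  choose L hL using fun χ₂ => gp_lim hω D Q χ₂
  have h1 : ∀ (χ₂ : Gal(QBar/K) →* Multiplicative (ZMod 3)) (s : Finset (Pl K)),
      Tendsto (fun X : ℝ => (if Teq S Q χ₂ χ₁ ∧ ∀ l ∈ s, Spt Q χ₂ l then
        (3 : ℝ) ^ s.card * ws (GP Q D.S0 χ₂ (X / (nr s * nr (rf Q S χ₂ ∩ D.S0)))) else 0) /
          (X * Real.log X ^ 2)) atTop (𝓝 (if Teq S Q χ₂ χ₁ ∧ ∀ l ∈ s, Spt Q χ₂ l then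
        (3 : ℝ) ^ s.card * (L χ₂ * (nr s * nr (rf Q S χ₂ ∩ D.S0))⁻¹) else 0)) := by
    intro χ₂ s
    by_cases h : Teq S Q χ₂ χ₁ ∧ ∀ l ∈ s, Spt Q χ₂ l
    · simp only [if_pos h]
      have he : 0 < nr s * nr (rf Q S χ₂ ∩ D.S0) := by
        have h2 := one_le_nr s
        have h3 := one_le_nr (rf Q S χ₂ ∩ D.S0)
        positivity
      have h2 := cfin_lim (fun X => ws (GP Q D.S0 χ₂ X)) (L χ₂) 2 (hL χ₂) 1 one_pos
        (nr s * nr (rf Q S χ₂ ∩ D.S0)) he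
      have h3 := h2.const_mul ((3 : ℝ) ^ s.card)
      have h4 : (nr s * nr (rf Q S χ₂ ∩ D.S0)) ^ (-(1 / 1 : ℝ)) * (1 / 1 : ℝ) ^ 2 =
          (nr s * nr (rf Q S χ₂ ∩ D.S0))⁻¹ := by
        rw [div_one, one_pow, mul_one, Real.rpow_neg_one]
      rw [h4] at h3
      refine h3.congr fun X => ?_
      simp only [div_one, Real.rpow_one]
      rw [mul_div_assoc]
    · simp only [if_neg h, zero_div]
      exact tendsto_const_nhds
  refine ⟨∑ χ₂ ∈ R, ∑ s ∈ (D.S0 \ S).powerset, if Teq S Q χ₂ χ₁ ∧ ∀ l ∈ s, Spt Q χ₂ l then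
        (3 : ℝ) ^ s.card * (L χ₂ * (nr s * nr (rf Q S χ₂ ∩ D.S0))⁻¹) else 0, ?_⟩
  have h2 := tendsto_finsetSum R fun χ₂ _ =>
    tendsto_finsetSum (D.S0 \ S).powerset fun s _ => h1 χ₂ s
  refine h2.congr fun X => ?_
  rw [dc hω Q S D.S0 hS χ₁ R hR hR1 hR2 X, Finset.sum_div]
  refine Finset.sum_congr rfl fun χ₂ _ => ?_
  rw [Finset.sum_div]

end H38.MT
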