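import Pool.Agent.H38.MT.KA
import Pool.Agent.H38.MT.KB
import Pool.Agent.H38.MT.CW
import Pool.Agent.H38.MT.PF

/-!
# [H38 MT TA] the pairs with good primes as the sum `SW`, 90-140 lines. File Pool/Agent/H38/MT/TA.lean

`ws (GP Q S0 χ₂ X) = ∑_{u ∈ U} SW D c3 (fun _ => u) ∅ (hh D Q χ₂ u) X`.

Proof. The map `(u, f) ↦ (ch D u (f 1) (f 2), f 0)` is a bijection from the pairs `(u, f)` with `u ∈ U`, `f : Fin 3 → GF D X` with `Dj f`, `∏ nr (f i) ≤ X`, `SpR c3 (fun _ => u) f`, `D.LL v (xx D u (f 1) (f 2)) = 0` for `v ∈ f 0` and `hh D Q χ₂ u (qf ∘ f) = 1` onto `GP Q S0 χ₂ X`, and the term of `SW` is `3 ^ #(f 0)` for these and `0` for the others: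
* `SW` (`H38/BB/CDef.lean`) unfolded: `Disjoint (f i) ∅` is trivial; the term is `hh .. * wtR c3 f (fun v k => D.LL v (akR ..))`, `cw_ak` (`xx` unfolded), `cw_wt`.
* For `f` with `Dj f` and all primes good: `Ad D (f 1) (f 2)`; `hh .. (qf ∘ f) = 1` iff `Teq D.S0 Q (ch D u (f 1) (f 2)) χ₂`: `→` by `kc_teq` (and `Teq` is symmetric and transitive), `←` by definition. `rf Q D.S0 (ch ..) = f 1 ∪ f 2` (`ka_rf`, `hU.tu`), `nr_union`, so `nr (rf ..) * nr (f 0) = ∏ i, nr (f i)` (`Fin.prod_univ_three`).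
  `v ∈ f 0`: `v ∉ f 1 ∪ f 2` (`Dj`), so `ord v (xx ..) = 0` (`ka_ord`) and `Spt Q (ch ..) v ↔ D.LL v (xx ..) = 0` (`kb_sp`). `ch ≠ 1 ↔ ¬ IsPow 3 (xx ..)` (`ka_one`, `ba_ch`), and for `f 1 = f 2 = ∅` `xx = u`, while for `f 1 ∪ f 2 ≠ ∅` `xx` is never a cube (`ka_ord`: an order is 1 or 2): so it is `SpR` by `cw_sp`.
* surjective: `ka_ex` for `χ` (`Ch K` is contained in the characters of finite type); `rf = a ∪ b` consists of primes of prime norm outside `S0`, so `a, b, q` are good; `Dj`: `Ad` and `ba_dj`; `nr (f i) ≤ X` because all `nr ≥ 1` (`one_le_nr`, `atupa_mem_GF`). injective: `ka_inj`.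
`ws` is a `finsum` over the finite set `GP` (`pr_fin`): `finsum_mem_eq_finite_toFinset_sum`, or `finsum_mem_eq_of_bijOn` and `Finset.sum_sigma`/`Finset.sum_product`.
-/

set_option autoImplicit false

open scoped NumberField Classical
open IsDedekindDomain H38.ML H63.MA H38.BB H48.KV H48.T3

noncomputable section

namespace H38.MT

variable {K : IntermediateField ℚ QBar} [NumberField K] {ω : K}

/-- the condition on the families -/
private def Pc (D : RD0 K 3 ω) (Q : DP K QBar) (χ₂ : Gal(QBar/K) →* Multiplicative (ZMod 3)) (X : ℝ)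
    (u : Kˣ) (f : Fin 3 → Finset (Pl K)) : Prop :=
  Dj f ∧ ∏ i, nr (f i) ≤ X ∧ SpR c3 (fun _ => u) f ∧
    (∀ v ∈ f 0, D.LL v (xx D u (f 1) (f 2)) = 0) ∧
    ∃ a b, Ad D a b ∧ qf D a = qf D (f 1) ∧ qf D b = qf D (f 2) ∧ Teq D.S0 Q (ch D u a b) χ₂

private theorem ta_term (D : RD0 K 3 ω) (Q : DP K QBar)
    (χ₂ : Gal(QBar/K) →* Multiplicative (ZMod 3)) (X : ℝ) (u : Kˣ) (f : Fin 3 → Finset (Pl K)) :
    (if Dj f ∧ (∀ i, Disjoint (f i) ∅) ∧ ∏ i, nr (f i) ≤ X ∧ SpR c3 (fun _ => u) f then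
      hh D Q χ₂ u (fun i => qf D (f i)) *
        wtR c3 f (fun v k => D.LL v (akR D c3 (fun _ => u) f k)) else 0) =
      if Pc D Q χ₂ X u f then (3 : ℝ) ^ (f 0).card else 0 := by
  have hw : wtR c3 f (fun v k => D.LL v (akR D c3 (fun _ => u) f k)) =
      if ∀ v ∈ f 0, D.LL v (xx D u (f 1) (f 2)) = 0 then (3 : ℝ) ^ (f 0).card else 0 := by
    rw [cw_wt]
    congr 1
    refine propext (forall_congr' fun v => forall_congr' fun _ => ?_)
    rw [cw_ak]
    rfl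
  rw [hw]
  unfold hh Pc
  by_cases h1 : Dj f ∧ ∏ i, nr (f i) ≤ X ∧ SpR c3 (fun _ => u) f
  · obtain ⟨h2, h3, h4⟩ := h1
    rw [if_pos ⟨h2, fun i => Finset.disjoint_empty_right _, h3, h4⟩]
    by_cases h5 : ∀ v ∈ f 0, D.LL v (xx D u (f 1) (f 2)) = 0
    · rw [if_pos h5]
      by_cases h6 : ∃ a b, Ad D a b ∧ qf D a = qf D (f 1) ∧ qf D b = qf D (f 2) ∧
          Teq D.S0 Q (ch D u a b) χ₂
      · rw [if_pos h6, if_pos ⟨h2, h3, h4, h5, h6⟩, one_mul]
      · rw [if_neg h6, if_neg fun h => h6 h.2.2.2.2, zero_mul]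
    · rw [if_neg h5, mul_zero, if_neg fun h => h5 h.2.2.2.1]
  · rw [if_neg fun h => h1 ⟨h.1, h.2.2.1, h.2.2.2⟩, if_neg fun h => h1 ⟨h.1, h.2.1, h.2.2.1⟩]

private theorem ta_one (hω : IsPrimitiveRoot ω 3) (D : RD0 K 3 ω) {u : Kˣ} (hu : TUnit D.S0 u)
    {f : Fin 3 → Finset (Pl K)} (h : Ad D (f 1) (f 2)) :
    ch D u (f 1) (f 2) ≠ 1 ↔ SpR c3 (fun _ => u) f := by
  rw [cw_sp, Ne, ka_one hω]
  have hp : ∀ v : Pl K, IsPow 3 (xx D u (f 1) (f 2)) → (3 : ℤ) ∣ ord v (xx D u (f 1) (f 2)) := by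
    rintro v ⟨y, hy⟩
    rw [← hy, ord_pow]
    exact Dvd.intro _ rfl
  constructor
  · intro h1
    by_cases ha : f 1 = ∅
    · by_cases hb : f 2 = ∅
      · refine Or.inr (Or.inr fun h2 => h1 ?_)
        rw [ha, hb]
        simpa [xx] using h2
      · exact Or.inr (Or.inl hb)
    · exact Or.inl ha
  · rintro (ha | hb | hu3) h2
    · obtain ⟨v, hv⟩ := Finset.nonempty_iff_ne_empty.2 ha
      have h3 := hp v h2
      rw [ka_ord D hu h v (h.2.1 v hv), if_pos hv,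
        if_neg (Finset.disjoint_left.1 h.1 hv)] at h3
      norm_num at h3
    · obtain ⟨v, hv⟩ := Finset.nonempty_iff_ne_empty.2 hb
      have h3 := hp v h2
      rw [ka_ord D hu h v (h.2.2 v hv), if_pos hv,
        if_neg (Finset.disjoint_right.1 h.1 hv)] at h3
      norm_num at h3
    · by_cases ha : f 1 = ∅
      · by_cases hb : f 2 = ∅
        · rw [ha, hb] at h2
          exact hu3 (by simpa [xx] using h2)
        · obtain ⟨v, hv⟩ := Finset.nonempty_iff_ne_empty.2 hb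
          have h3 := hp v h2
          rw [ka_ord D hu h v (h.2.2 v hv), if_pos hv,
            if_neg (Finset.disjoint_right.1 h.1 hv)] at h3
          norm_num at h3
      · obtain ⟨v, hv⟩ := Finset.nonempty_iff_ne_empty.2 ha
        have h3 := hp v h2
        rw [ka_ord D hu h v (h.2.1 v hv), if_pos hv,
          if_neg (Finset.disjoint_left.1 h.1 hv)] at h3
        norm_num at h3

/-- the translation of the conditions -/
private theorem ta_iff (hω : IsPrimitiveRoot ω 3) (D : RD0 K 3 ω) (Q : DP K QBar)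
    (χ₂ : Gal(QBar/K) →* Multiplicative (ZMod 3)) (X : ℝ) {u : Kˣ} (hu : TUnit D.S0 u)
    {f : Fin 3 → Finset (Pl K)} (hf : ∀ i, ∀ v ∈ f i, D.Gd v) (hd : Dj f) :
    Pc D Q χ₂ X u f ↔ (ch D u (f 1) (f 2), f 0) ∈ GP Q D.S0 χ₂ X := by
  have h12 : Disjoint (f 1) (f 2) := hd 1 2 (by decide)
  have h01 : Disjoint (f 0) (f 1) := hd 0 1 (by decide)
  have h02 : Disjoint (f 0) (f 2) := hd 0 2 (by decide)
  have hA : Ad D (f 1) (f 2) := ⟨h12, fun v hv => (hf 1 v hv).1, fun v hv => (hf 2 v hv).1⟩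
  have hr : rf Q D.S0 (ch D u (f 1) (f 2)) = f 1 ∪ f 2 := ka_rf hω D Q hu hA
  have hn : nr (rf Q D.S0 (ch D u (f 1) (f 2))) * nr (f 0) = ∏ i, nr (f i) := by
    rw [hr, nr_union h12, Fin.prod_univ_three]
    ring
  have hs : (∀ v ∈ f 0, D.LL v (xx D u (f 1) (f 2)) = 0) ↔
      ∀ l ∈ f 0, l ∉ D.S0 ∧ Spt Q (ch D u (f 1) (f 2)) l := by
    refine forall_congr' fun v => forall_congr' fun hv => ?_
    have hv0 : v ∉ D.S0 := (hf 0 v hv).1
    have h3 : ord v (xx D u (f 1) (f 2)) = 0 := by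
      rw [ka_ord D hu hA v hv0, if_neg (Finset.disjoint_left.1 h01 hv),
        if_neg (Finset.disjoint_left.1 h02 hv), add_zero]
    rw [← kb_sp hω D Q _ v hv0 h3]
    exact ⟨fun h => ⟨hv0, h⟩, fun h => h.2⟩
  have ht : (∃ a b, Ad D a b ∧ qf D a = qf D (f 1) ∧ qf D b = qf D (f 2) ∧
      Teq D.S0 Q (ch D u a b) χ₂) ↔ Teq D.S0 Q (ch D u (f 1) (f 2)) χ₂ := by
    constructor
    · rintro ⟨a, b, hab, h1, h2, h3⟩ v hv σ hσ
      rw [kc_teq hω D Q u hA hab h1.symm h2.symm v hv σ hσ, h3 v hv σ hσ]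
    · intro h3
      exact ⟨f 1, f 2, hA, rfl, rfl, h3⟩
  have hch : ch D u (f 1) (f 2) ∈ Ch K ↔ SpR c3 (fun _ => u) f := by
    rw [ba_ch, ← ta_one hω D hu hA]
    exact ⟨fun h => h.2, fun h => ⟨ka_ft hω D u _ _, h⟩⟩
  constructor
  · rintro ⟨-, h2, h3, h4, h5⟩
    refine ⟨⟨hch.2 h3, hs.1 h4, ?_⟩, ht.1 h5, ?_⟩
    · change nr (rf Q D.S0 (ch D u (f 1) (f 2))) * nr (f 0) ≤ X
      rw [hn]
      exact h2
    · intro l hl
      change l ∈ rf Q D.S0 (ch D u (f 1) (f 2)) ∪ f 0 at hl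
      rw [hr, Finset.mem_union, Finset.mem_union] at hl
      rcases hl with (hl | hl) | hl
      · exact (hf 1 l hl).2
      · exact (hf 2 l hl).2
      · exact (hf 0 l hl).2
  · rintro ⟨⟨h1, h2, h3⟩, h4, -⟩
    refine ⟨hd, ?_, hch.1 h1, hs.2 h2, ht.2 h4⟩
    rw [← hn]
    exact h3

theorem ta (hω : IsPrimitiveRoot ω 3) (D : RD0 K 3 ω) (Q : DP K QBar) {U : Finset Kˣ}
    (hU : UR D U) (χ₂ : Gal(QBar/K) →* Multiplicative (ZMod 3)) (X : ℝ) :
    ws (GP Q D.S0 χ₂ X) = ∑ u ∈ U, SW D c3 (fun _ => u) ∅ (hh D Q χ₂ u) X := by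
  have hfin : (GP Q D.S0 χ₂ X).Finite := (pr_fin hω Q D.S0 X).subset fun z hz => hz.1
  have h1 : ∀ u : Kˣ, SW D c3 (fun _ => u) ∅ (hh D Q χ₂ u) X =
      ∑ f ∈ Fintype.piFinset (fun _ : Fin 3 => GF D X),
        if Pc D Q χ₂ X u f then (3 : ℝ) ^ (f 0).card else 0 := by
    intro u
    unfold SW
    exact Finset.sum_congr rfl fun f _ => ta_term D Q χ₂ X u f
  rw [Finset.sum_congr rfl fun u _ => h1 u, ← Finset.sum_product', ← Finset.sum_filter]
  unfold ws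
  rw [finsum_mem_eq_finite_toFinset_sum _ hfin]
  symm
  refine Finset.sum_bij
    (fun (z : Kˣ × (Fin 3 → Finset (Pl K))) _ => (ch D z.1 (z.2 1) (z.2 2), z.2 0)) ?_ ?_ ?_ ?_
  · rintro ⟨u, f⟩ hz
    rw [Finset.mem_filter, Finset.mem_product, Fintype.mem_piFinset] at hz
    obtain ⟨⟨hu, hf⟩, hP⟩ := hz
    rw [Set.Finite.mem_toFinset]
    exact (ta_iff hω D Q χ₂ X (hU.tu u hu) (fun i => (atupa_mem_GF.1 (hf i)).2) hP.1).1 hP
  · rintro ⟨u, f⟩ hz ⟨u', f'⟩ hz' he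
    rw [Finset.mem_filter, Finset.mem_product, Fintype.mem_piFinset] at hz hz'
    obtain ⟨⟨hu, hf⟩, hP⟩ := hz
    obtain ⟨⟨hu', hf'⟩, hP'⟩ := hz'
    have hA : Ad D (f 1) (f 2) := ⟨hP.1 1 2 (by decide), fun v hv => ((atupa_mem_GF.1 (hf 1)).2 v hv).1,
      fun v hv => ((atupa_mem_GF.1 (hf 2)).2 v hv).1⟩
    have hA' : Ad D (f' 1) (f' 2) := ⟨hP'.1 1 2 (by decide),
      fun v hv => ((atupa_mem_GF.1 (hf' 1)).2 v hv).1, fun v hv => ((atupa_mem_GF.1 (hf' 2)).2 v hv).1⟩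
    obtain ⟨e1, e2⟩ := Prod.mk.inj he
    obtain ⟨e3, e4, e5⟩ := ka_inj hω D hU hu hu' hA hA' e1
    refine Prod.ext e3 (funext fun i => ?_)
    fin_cases i
    · exact e2
    · exact e4
    · exact e5
  · rintro ⟨χ, q⟩ hz
    rw [Set.Finite.mem_toFinset] at hz
    have hz0 := hz
    obtain ⟨⟨h2, h3, h4⟩, h5, h6⟩ := hz
    obtain ⟨hft, -⟩ := (ba_ch χ).1 h2
    obtain ⟨u, hu, a, b, hab, rfl⟩ := ka_ex hω D hU χ hft
    have hr : rf Q D.S0 (ch D u a b) = a ∪ b := ka_rf hω D Q (hU.tu u hu) hab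
    have hdq : Disjoint (a ∪ b) q := by
      rw [← hr]
      exact ba_dj Q hft h3
    rw [Finset.disjoint_union_left] at hdq
    change nr (rf Q D.S0 (ch D u a b)) * nr q ≤ X at h4
    rw [hr, nr_union hab.1] at h4
    have ha1 := one_le_nr a
    have hb1 := one_le_nr b
    have hq1 := one_le_nr q
    have hg : ∀ i, ∀ v ∈ (![q, a, b] : Fin 3 → Finset (Pl K)) i, D.Gd v := by
      intro i
      fin_cases i
      · intro v hv
        exact ⟨(h3 v hv).1, h6 v (Finset.mem_union_right _ hv)⟩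
      · intro v hv
        refine ⟨hab.2.1 v hv, h6 v (Finset.mem_union_left _ ?_)⟩
        rw [hr]
        exact Finset.mem_union_left _ hv
      · intro v hv
        refine ⟨hab.2.2 v hv, h6 v (Finset.mem_union_left _ ?_)⟩
        rw [hr]
        exact Finset.mem_union_right _ hv
    have hn : ∀ i, nr ((![q, a, b] : Fin 3 → Finset (Pl K)) i) ≤ X := by
      have h7 : 1 ≤ nr a * nr b := one_le_mul_of_one_le_of_one_le ha1 hb1
      intro i
      fin_cases i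
      · change nr q ≤ X
        nlinarith
      · change nr a ≤ X
        have h8 : 1 ≤ nr b * nr q := one_le_mul_of_one_le_of_one_le hb1 hq1
        have h9 : nr a * nr b * nr q = nr a * (nr b * nr q) := by ring
        nlinarith
      · change nr b ≤ X
        have h8 : 1 ≤ nr a * nr q := one_le_mul_of_one_le_of_one_le ha1 hq1
        have h9 : nr a * nr b * nr q = nr b * (nr a * nr q) := by ring
        nlinarith
    have hdj : Dj (![q, a, b] : Fin 3 → Finset (Pl K)) := by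
      intro i j hij
      fin_cases i <;> fin_cases j
      · exact absurd rfl hij
      · exact hdq.1.symm
      · exact hdq.2.symm
      · exact hdq.1
      · exact absurd rfl hij
      · exact hab.1
      · exact hdq.2
      · exact hab.1.symm
      · exact absurd rfl hij
    refine ⟨(u, ![q, a, b]), ?_, rfl⟩
    rw [Finset.mem_filter, Finset.mem_product, Fintype.mem_piFinset]
    refine ⟨⟨hu, fun i => atupa_mem_GF.2 ⟨hn i, hg i⟩⟩, ?_⟩
    exact (ta_iff hω D Q χ₂ X (hU.tu u hu) hg hdj).2 hz0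
  · rintro ⟨u, f⟩ _
    rfl

end H38.MT
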