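import Pool.Agent.H38.MT.KA
import Pool.Agent.H38.MT.KB
import Pool.Agent.H38.MT.CW
import Pool.Agent.H38.MT.PF

/-!
# [H38 MT TU] the pairs with given set of primes of non-prime norm, 120-180 lines. File Pool/Agent/H38/MT/TU.lean

`E` a finite set of primes of non-prime norm outside `S0`. The weighted number of the pairs `(χ, q) ∈ PR Q S0 X` for which the primes of non-prime norm in `rf Q S0 χ ∪ q` are exactly those in `E` is at most `C 5^{#E} (nr E)^(-3/4) X (1 + log X)^2` for `X ≥ 1`.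

Proof. `U` from `exists_UR`, `C₁` from `ub` (`H38/BB/CUb.lean`) for `c3`, `N = 3`, `η = 1/4`: `SW D c3 b E 1 Y ≤ C₁ nr E ^ (1/4) Y (1 + log Y)^2` for `Y ≥ 1`, `BS2 D b E`. `C = #U C₁ + 1`.
To `(χ, q)` in the set attach `(u, e, f)`: `χ = ch D u a b` (`ka_ex`), `e = (q ∩ E, a ∩ E, b ∩ E)`, `f = (q ∖ E, a ∖ E, b ∖ E)`. It is injective (`q = e 0 ∪ f 0` etc.). The three sets `e i` form a partition of `E` (`rf = a ∪ b` by `ka_rf`, disjoint from `q` by `ba_dj`, `E ⊆ rf ∪ q`). All primes in the `f i` are good (prime norm, outside `S0`), `Dj f`, disjoint from `E`, `∏ nr (f i) = nr (rf) nr q / nr E ≤ X / nr E =: Y`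
(`nr_union`); so `Y ≥ 1` if the set is not empty (if it is empty the claim is trivial, `ws ∅ = 0`).
With `b' = xx D u (e 1) (e 2)` (`BS2 D.toRD0 (fun _ => b') E`: `ka_ord` for the orders outside `S0` and `E`): `akR D c3 (fun _ => b') f k = xx D u a b` (`cw_ak`; `∏_{a} pi = ∏_{e 1} pi * ∏_{f 1} pi`: `Finset.prod_union`), so for `v ∈ f 0` (`v ∉ a ∪ b`, `ord v (xx) = 0`) `Spt Q χ v` gives `D.LL v (akR ..) = 0` (`kb_sp`), the weight `wtR` is `3 ^ #(f 0)` (`cw_wt`).
`SpR c3 (fun _ => b') f`: if `f 1 = f 2 = ∅` then `b' = xx D u a b` is not a cube as `χ ≠ 1` (`ka_one`, `ba_ch`, `cw_sp`).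
So the sum is at most `∑_{u ∈ U} ∑_{e} 3 ^ #(e 0) * SW D.toRD0 c3 (fun _ => xx D u (e 1) (e 2)) E (fun _ => 1) Y`, `e` over the partitions of `E` into three sets (all terms of `SW` are nonnegative), and `∑_e 3 ^ #(e 0) = 5 ^ #E`: parametrize the partitions by `E.powerset` for `e 0` and the powerset of `E ∖ e 0` for `e 1`: `∑_{e0 ⊆ E} 3 ^ #e0 2 ^ (#E - #e0) = 5 ^ #E` (`Finset.sum_pow_mul_eq_add_pow`: `∑_{s ⊆ E} a ^ #s * b ^ (#E - #s) = (a + b) ^ #E`).
`nr E ^ (1/4) * (X / nr E) = nr E ^ (-3/4) * X` (`Real.rpow_sub`/`rpow_add`), `log Y ≤ log X`.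
-/

set_option autoImplicit false

open scoped NumberField Classical
open IsDedekindDomain H38.ML H63.MA H38.BB H48.KV H48.T3

noncomputable section

namespace H38.MT

variable {K : IntermediateField ℚ QBar} [NumberField K] {ω : K}

/-- the pairs of disjoint subsets of `E` -/
private def PE (E : Finset (Pl K)) : Finset (Σ _ : Finset (Pl K), Finset (Pl K)) :=
  E.powerset.sigma fun e => (E \ e).powerset

private theorem pe_sum (E : Finset (Pl K)) : ∑ e ∈ PE E, (3 : ℝ) ^ e.1.card = 5 ^ E.card := by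
  unfold PE
  rw [Finset.sum_sigma]
  have h : ∀ e ∈ E.powerset, ∑ s ∈ (E \ e).powerset,
      (3 : ℝ) ^ (⟨e, s⟩ : Σ _ : Finset (Pl K), Finset (Pl K)).1.card =
        3 ^ e.card * 2 ^ (E.card - e.card) := by
    intro e he
    show ∑ s ∈ (E \ e).powerset, (3 : ℝ) ^ e.card = _
    rw [Finset.sum_const, Finset.card_powerset,
      Finset.card_sdiff_of_subset (Finset.mem_powerset.1 he), nsmul_eq_mul]
    push_cast
    ring
  rw [Finset.sum_congr rfl h, Finset.sum_pow_mul_eq_add_pow]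
  norm_num

/-- the term of the family -/
private def GG (D : RD0 K 3 ω) (E : Finset (Pl K)) (Y : ℝ)
    (t : Kˣ × (Σ _ : Finset (Pl K), Finset (Pl K)) × (Fin 3 → Finset (Pl K))) : ℝ :=
  3 ^ t.2.1.1.card *
    if Dj t.2.2 ∧ (∀ i, Disjoint (t.2.2 i) E) ∧ ∏ i, nr (t.2.2 i) ≤ Y ∧
      SpR c3 (fun _ => xx D t.1 t.2.1.2 ((E \ t.2.1.1) \ t.2.1.2)) t.2.2 then
      (1 : ℝ) * wtR c3 t.2.2 (fun v k =>
        D.LL v (akR D c3 (fun _ => xx D t.1 t.2.1.2 ((E \ t.2.1.1) \ t.2.1.2)) t.2.2 k)) else 0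

/-- the pair attached to a family -/
private def RR (D : RD0 K 3 ω) (E : Finset (Pl K))
    (t : Kˣ × (Σ _ : Finset (Pl K), Finset (Pl K)) × (Fin 3 → Finset (Pl K))) :
    (Gal(QBar/K) →* Multiplicative (ZMod 3)) × Finset (Pl K) :=
  (ch D t.1 (t.2.1.2 ∪ t.2.2 1) (((E \ t.2.1.1) \ t.2.1.2) ∪ t.2.2 2), t.2.1.1 ∪ t.2.2 0)

private theorem gg_nn (D : RD0 K 3 ω) (E : Finset (Pl K)) (Y : ℝ)
    (t : Kˣ × (Σ _ : Finset (Pl K), Finset (Pl K)) × (Fin 3 → Finset (Pl K))) :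
    0 ≤ GG D E Y t := by
  unfold GG
  refine mul_nonneg (by positivity) ?_
  split_ifs
  · rw [one_mul]
    exact cub_wt0 _ _ _
  · exact le_rfl

private theorem tu_key (hω : IsPrimitiveRoot ω 3) (D : RD K 3 ω) (Q : DP K QBar)
    {U : Finset Kˣ} (hU : UR D.toRD0 U) {E : Finset (Pl K)}
    {X : ℝ} {z : (Gal(QBar/K) →* Multiplicative (ZMod 3)) × Finset (Pl K)}
    (hz : z ∈ PR Q D.S0 X)
    (hzE : (rf Q D.S0 z.1 ∪ z.2).filter (fun l => ¬ (nm l).Prime) = E) :
    ∃ t : Kˣ × (Σ _ : Finset (Pl K), Finset (Pl K)) × (Fin 3 → Finset (Pl K)),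
      t ∈ U ×ˢ (PE E ×ˢ Fintype.piFinset (fun _ : Fin 3 => GF D.toRD0 (X / nr E))) ∧
      z = RR D.toRD0 E t ∧ (3 : ℝ) ^ z.2.card ≤ GG D.toRD0 E (X / nr E) t ∧ nr E ≤ X := by
  obtain ⟨χ, q⟩ := z
  obtain ⟨hχ, hq, hn⟩ := hz
  simp only at hχ hq hn hzE
  have hχ' := (ba_ch χ).1 hχ
  obtain ⟨u, hu, a, b, hab, hc⟩ := ka_ex hω D.toRD0 hU χ hχ'.1
  have hrf : rf Q D.S0 χ = a ∪ b := by
    rw [hc]
    exact ka_rf hω D.toRD0 Q (hU.tu u hu) hab
  have hdj : Disjoint (a ∪ b) q := by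
    rw [← hrf]
    exact ba_dj Q hχ'.1 hq
  rw [hrf] at hzE hn
  have hd : Disjoint a b := hab.1
  have ha := hab.2.1
  have hb := hab.2.2
  have haq : Disjoint a q := (Finset.disjoint_union_left.1 hdj).1
  have hbq : Disjoint b q := (Finset.disjoint_union_left.1 hdj).2
  have d1 : ∀ v, v ∈ a → v ∉ b := fun v h => Finset.disjoint_left.1 hd h
  have d2 : ∀ v, v ∈ a → v ∉ q := fun v h => Finset.disjoint_left.1 haq h
  have d3 : ∀ v, v ∈ b → v ∉ q := fun v h => Finset.disjoint_left.1 hbq h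
  have hEm : ∀ v, v ∈ E ↔ (v ∈ a ∨ v ∈ b ∨ v ∈ q) ∧ ¬ (nm v).Prime := by
    intro v
    rw [← hzE, Finset.mem_filter, Finset.mem_union, Finset.mem_union, or_assoc]
  have hS : ∀ v, v ∈ a ∨ v ∈ b ∨ v ∈ q → v ∉ D.S0 := by
    rintro v (h | h | h)
    · exact ha v h
    · exact hb v h
    · exact (hq v h).1
  have hG : ∀ v, v ∈ a ∨ v ∈ b ∨ v ∈ q → v ∉ E → D.toRD0.Gd v := by
    intro v hv hvE
    refine ⟨hS v hv, ?_⟩
    by_contra hp
    exact hvE ((hEm v).2 ⟨hv, hp⟩)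
  have he2 : (E \ (q ∩ E)) \ (a ∩ E) = b ∩ E := by
    ext v
    have h1 := hEm v
    have h2 := d1 v
    have h3 := d2 v
    have h4 := d3 v
    simp only [Finset.mem_sdiff, Finset.mem_inter]
    tauto
  have hxx : xx D.toRD0 u (a ∩ E) (b ∩ E) *
      ((∏ v ∈ a \ E, D.pi v) * ∏ v ∈ b \ E, D.pi v ^ 2) = xx D.toRD0 u a b := by
    unfold xx
    rw [← Finset.prod_inter_mul_prod_sdiff a E, ← Finset.prod_inter_mul_prod_sdiff b E]
    simp only [mul_assoc, mul_left_comm, mul_comm]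
  -- the norms
  have hnn : nr (a ∪ b) * nr q = (nr (q \ E) * nr (a \ E) * nr (b \ E)) * nr E := by
    have e1 : nr (a ∪ b) = nr a * nr b := nr_union hd
    have e2 : ∀ s : Finset (Pl K), nr s = nr (s ∩ E) * nr (s \ E) := by
      intro s
      unfold nr
      rw [Finset.prod_inter_mul_prod_sdiff]
    have e3 : nr E = nr (a ∩ E) * nr (b ∩ E) * nr (q ∩ E) := by
      have h1 : E = (a ∩ E) ∪ (b ∩ E) ∪ (q ∩ E) := by
        ext v
        have h1 := hEm v
        simp only [Finset.mem_union, Finset.mem_inter]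
        tauto
      have h2 : Disjoint (a ∩ E) (b ∩ E) :=
        Finset.disjoint_of_subset_left Finset.inter_subset_left
          (Finset.disjoint_of_subset_right Finset.inter_subset_left hd)
      have h3 : Disjoint ((a ∩ E) ∪ (b ∩ E)) (q ∩ E) := by
        refine Finset.disjoint_of_subset_left ?_
          (Finset.disjoint_of_subset_right Finset.inter_subset_left hdj)
        exact Finset.union_subset_union Finset.inter_subset_left Finset.inter_subset_left
      conv_lhs => rw [h1]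
      rw [nr_union h3, nr_union h2]
    rw [e1, e2 a, e2 b, e2 q, e3]
    ring
  have hE0 : 0 < nr E := lt_of_lt_of_le one_pos (one_le_nr E)
  have hle : nr (q \ E) * nr (a \ E) * nr (b \ E) ≤ X / nr E := by
    rw [le_div_iff₀ hE0, ← hnn]
    exact hn
  have hEX : nr E ≤ X := by
    have h1 : 1 ≤ nr (q \ E) * nr (a \ E) * nr (b \ E) :=
      one_le_mul_of_one_le_of_one_le (one_le_mul_of_one_le_of_one_le (one_le_nr _) (one_le_nr _))
        (one_le_nr _)
    have h2 := h1.trans hle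
    rwa [le_div_iff₀ hE0, one_mul] at h2
  have hprod : ∏ i, nr ((![q \ E, a \ E, b \ E] : Fin 3 → Finset (Pl K)) i) ≤ X / nr E := by
    rw [Fin.prod_univ_three]
    exact hle
  have hDj : Dj (![q \ E, a \ E, b \ E] : Fin 3 → Finset (Pl K)) := by
    have k1 : Disjoint (a \ E) (b \ E) :=
      Finset.disjoint_of_subset_left Finset.sdiff_subset
        (Finset.disjoint_of_subset_right Finset.sdiff_subset hd)
    have k2 : Disjoint (a \ E) (q \ E) :=
      Finset.disjoint_of_subset_left Finset.sdiff_subset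
        (Finset.disjoint_of_subset_right Finset.sdiff_subset haq)
    have k3 : Disjoint (b \ E) (q \ E) :=
      Finset.disjoint_of_subset_left Finset.sdiff_subset
        (Finset.disjoint_of_subset_right Finset.sdiff_subset hbq)
    intro i j hij
    fin_cases i <;> fin_cases j
    · exact absurd rfl hij
    · exact k2.symm
    · exact k3.symm
    · exact k2
    · exact absurd rfl hij
    · exact k1
    · exact k3
    · exact k1.symm
    · exact absurd rfl hij
  have hDE : ∀ i, Disjoint ((![q \ E, a \ E, b \ E] : Fin 3 → Finset (Pl K)) i) E := by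
    intro i
    fin_cases i
    · exact Finset.sdiff_disjoint
    · exact Finset.sdiff_disjoint
    · exact Finset.sdiff_disjoint
  refine ⟨(u, ⟨q ∩ E, a ∩ E⟩, ![q \ E, a \ E, b \ E]), ?_, ?_, ?_, hEX⟩
  · rw [Finset.mem_product, Finset.mem_product]
    refine ⟨hu, ?_, ?_⟩
    · unfold PE
      rw [Finset.mem_sigma]
      refine ⟨Finset.mem_powerset.2 Finset.inter_subset_right, Finset.mem_powerset.2 ?_⟩
      intro v hv
      have h3 := d2 v
      simp only [Finset.mem_sdiff, Finset.mem_inter] at hv ⊢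
      tauto
    · rw [Fintype.mem_piFinset]
      intro i
      rw [atupa_mem_GF]
      refine ⟨(atupa_le_prod _ i).trans hprod, ?_⟩
      fin_cases i
      · intro v hv
        have hv' := Finset.mem_sdiff.1 hv
        exact hG v (Or.inr (Or.inr hv'.1)) hv'.2
      · intro v hv
        have hv' := Finset.mem_sdiff.1 hv
        exact hG v (Or.inl hv'.1) hv'.2
      · intro v hv
        have hv' := Finset.mem_sdiff.1 hv
        exact hG v (Or.inr (Or.inl hv'.1)) hv'.2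
  · unfold RR
    have r1 : (a ∩ E) ∪ (a \ E) = a := by
      ext v
      simp only [Finset.mem_union, Finset.mem_inter, Finset.mem_sdiff]
      tauto
    have r2 : (b ∩ E) ∪ (b \ E) = b := by
      ext v
      simp only [Finset.mem_union, Finset.mem_inter, Finset.mem_sdiff]
      tauto
    have r3 : (q ∩ E) ∪ (q \ E) = q := by
      ext v
      simp only [Finset.mem_union, Finset.mem_inter, Finset.mem_sdiff]
      tauto
    have r4 : (![q \ E, a \ E, b \ E] : Fin 3 → Finset (Pl K)) 0 = q \ E := rfl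
    have r5 : (![q \ E, a \ E, b \ E] : Fin 3 → Finset (Pl K)) 1 = a \ E := rfl
    have r6 : (![q \ E, a \ E, b \ E] : Fin 3 → Finset (Pl K)) 2 = b \ E := rfl
    simp only [r4, r5, r6]
    rw [he2, r1, r2, r3, hc]
  · unfold GG
    have r4 : (![q \ E, a \ E, b \ E] : Fin 3 → Finset (Pl K)) 0 = q \ E := rfl
    have r5 : (![q \ E, a \ E, b \ E] : Fin 3 → Finset (Pl K)) 1 = a \ E := rfl
    have r6 : (![q \ E, a \ E, b \ E] : Fin 3 → Finset (Pl K)) 2 = b \ E := rfl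
    simp only [he2]
    have hsp : SpR c3 (fun _ => xx D.toRD0 u (a ∩ E) (b ∩ E))
        (![q \ E, a \ E, b \ E] : Fin 3 → Finset (Pl K)) := by
      rw [cw_sp, r5, r6]
      by_contra hcon
      push Not at hcon
      obtain ⟨g1, g2, g3⟩ := hcon
      rw [g1, g2, Finset.prod_empty, Finset.prod_empty, mul_one, mul_one] at hxx
      rw [hxx] at g3
      exact hχ'.2 (hc.trans ((ka_one hω D.toRD0 u a b).2 g3))
    rw [if_pos ⟨hDj, hDE, hprod, hsp⟩, one_mul, cw_wt, r4, if_pos, ← pow_add,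
      Finset.card_inter_add_card_sdiff]
    intro v hv
    have hv' := (Finset.mem_sdiff.1 hv).1
    rw [cw_ak, r5, r6, hxx]
    have hvS : v ∉ D.S0 := (hq v hv').1
    refine (kb_sp hω D.toRD0 Q _ v hvS ?_).1 ?_
    · rw [ka_ord D.toRD0 (hU.tu u hu) hab v hvS, if_neg (fun h => d2 v h hv'),
        if_neg (fun h => d3 v h hv'), add_zero]
    · have h1 := (hq v hv').2
      rw [hc] at h1
      exact h1

theorem tu (hω : IsPrimitiveRoot ω 3) (D : RD K 3 ω) (Q : DP K QBar) :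
    ∃ C : ℝ, 0 < C ∧ ∀ E : Finset (Pl K), (∀ l ∈ E, l ∉ D.S0 ∧ ¬ (nm l).Prime) → ∀ X : ℝ, 1 ≤ X →
      ws {z | z ∈ PR Q D.S0 X ∧ (rf Q D.S0 z.1 ∪ z.2).filter (fun l => ¬ (nm l).Prime) = E} ≤
        C * 5 ^ E.card * nr E ^ (-(3 / 4) : ℝ) * X * (1 + Real.log X) ^ 2 := by
  obtain ⟨U, hU⟩ := exists_UR D.toRD0
  obtain ⟨C₁, hC₁, hub⟩ := ub Nat.prime_three (mone_odd Nat.prime_three (by norm_num) K) hω D c3
    (by norm_num) (1 / 4) (by norm_num)
  refine ⟨U.card * C₁ + 1, by positivity, fun E hE X hX => ?_⟩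
  have hE0 : 0 < nr E := lt_of_lt_of_le one_pos (one_le_nr E)
  have hLX : 0 ≤ Real.log X := Real.log_nonneg hX
  have hA : {z | z ∈ PR Q D.S0 X ∧
      (rf Q D.S0 z.1 ∪ z.2).filter (fun l => ¬ (nm l).Prime) = E}.Finite :=
    (pr_fin hω Q D.S0 X).subset fun z hz => hz.1
  have hRHS : 0 ≤ (U.card * C₁ + 1) * 5 ^ E.card * nr E ^ (-(3 / 4) : ℝ) * X *
      (1 + Real.log X) ^ 2 := by positivity
  by_cases hne : {z | z ∈ PR Q D.S0 X ∧
      (rf Q D.S0 z.1 ∪ z.2).filter (fun l => ¬ (nm l).Prime) = E} = ∅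
  · rw [hne]
    unfold ws
    rw [finsum_mem_empty]
    exact hRHS
  have key : ∀ z, z ∈ PR Q D.S0 X ∧
      (rf Q D.S0 z.1 ∪ z.2).filter (fun l => ¬ (nm l).Prime) = E →
    ∃ t : Kˣ × (Σ _ : Finset (Pl K), Finset (Pl K)) × (Fin 3 → Finset (Pl K)),
      t ∈ U ×ˢ (PE E ×ˢ Fintype.piFinset (fun _ : Fin 3 => GF D.toRD0 (X / nr E))) ∧
      z = RR D.toRD0 E t ∧ (3 : ℝ) ^ z.2.card ≤ GG D.toRD0 E (X / nr E) t ∧ nr E ≤ X :=
    fun z hz => tu_key hω D Q hU hz.1 hz.2
  have hEX : nr E ≤ X := by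
    obtain ⟨z, hz⟩ := Set.nonempty_iff_ne_empty.2 hne
    obtain ⟨t, -, -, -, h⟩ := key z hz
    exact h
  have hY : 1 ≤ X / nr E := by rwa [le_div_iff₀ hE0, one_mul]
  have hYX : X / nr E ≤ X := div_le_self (by linarith) (one_le_nr E)
  choose! φ h1 h2 h3 _ using key
  have hsum : ws {z | z ∈ PR Q D.S0 X ∧
      (rf Q D.S0 z.1 ∪ z.2).filter (fun l => ¬ (nm l).Prime) = E} ≤
      ∑ t ∈ U ×ˢ (PE E ×ˢ Fintype.piFinset (fun _ : Fin 3 => GF D.toRD0 (X / nr E))),
        GG D.toRD0 E (X / nr E) t := by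
    unfold ws
    rw [finsum_mem_eq_finite_toFinset_sum _ hA]
    calc ∑ z ∈ hA.toFinset, (3 : ℝ) ^ z.2.card
        ≤ ∑ z ∈ hA.toFinset, GG D.toRD0 E (X / nr E) (φ z) :=
          Finset.sum_le_sum fun z hz => h3 z ((Set.Finite.mem_toFinset hA).1 hz)
      _ = ∑ t ∈ hA.toFinset.image φ, GG D.toRD0 E (X / nr E) t := by
          rw [Finset.sum_image]
          intro z hz z' hz' hzz
          have e1 := h2 z ((Set.Finite.mem_toFinset hA).1 hz)
          have e2 := h2 z' ((Set.Finite.mem_toFinset hA).1 hz')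
          rw [e1, e2, hzz]
      _ ≤ _ := by
          refine Finset.sum_le_sum_of_subset_of_nonneg ?_ fun t _ _ => gg_nn _ _ _ _
          intro t ht
          obtain ⟨z, hz, rfl⟩ := Finset.mem_image.1 ht
          exact h1 z ((Set.Finite.mem_toFinset hA).1 hz)
  have hSW : ∀ u ∈ U, ∀ e ∈ PE E,
      ∑ f ∈ Fintype.piFinset (fun _ : Fin 3 => GF D.toRD0 (X / nr E)),
        GG D.toRD0 E (X / nr E) (u, e, f) ≤
      3 ^ e.1.card * (C₁ * nr E ^ (1 / 4 : ℝ) * (X / nr E) * (1 + Real.log X) ^ 2) := by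
    intro u hu e he
    have e1 : ∑ f ∈ Fintype.piFinset (fun _ : Fin 3 => GF D.toRD0 (X / nr E)),
        GG D.toRD0 E (X / nr E) (u, e, f) = 3 ^ e.1.card *
        SW D.toRD0 c3 (fun _ => xx D.toRD0 u e.2 ((E \ e.1) \ e.2)) E (fun _ => 1)
          (X / nr E) := by
      unfold SW GG
      rw [Finset.mul_sum]
    rw [e1]
    refine mul_le_mul_of_nonneg_left ?_ (by positivity)
    have hse : e.1 ⊆ E ∧ e.2 ⊆ E \ e.1 := by
      unfold PE at he
      rw [Finset.mem_sigma, Finset.mem_powerset, Finset.mem_powerset] at he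
      exact he
    have hAd : Ad D.toRD0 e.2 ((E \ e.1) \ e.2) := by
      refine ⟨Finset.disjoint_sdiff, fun v hv => ?_, fun v hv => ?_⟩
      · exact (hE v (Finset.mem_sdiff.1 (hse.2 hv)).1).1
      · exact (hE v (Finset.mem_sdiff.1 (Finset.mem_sdiff.1 hv).1).1).1
    have hBS : BS2 D.toRD0 (fun _ : Fin 1 => xx D.toRD0 u e.2 ((E \ e.1) \ e.2)) E := by
      refine ⟨fun v hv => (hE v hv).1, fun _ v hvS hvE => ?_⟩
      rw [ka_ord D.toRD0 (hU.tu u hu) hAd v hvS, if_neg, if_neg, add_zero]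
      · exact fun h => hvE (Finset.mem_sdiff.1 (Finset.mem_sdiff.1 h).1).1
      · exact fun h => hvE (Finset.mem_sdiff.1 (hse.2 h)).1
    refine (hub _ E hBS (X / nr E) hY).trans ?_
    refine mul_le_mul_of_nonneg_left ?_ (by positivity)
    refine pow_le_pow_left₀ (by linarith [Real.log_nonneg hY]) ?_ 2
    have := Real.log_le_log (by linarith) hYX
    linarith
  have hpow : nr E ^ (1 / 4 : ℝ) * (X / nr E) = nr E ^ (-(3 / 4) : ℝ) * X := by
    have : nr E ^ (-(3 / 4) : ℝ) = nr E ^ (1 / 4 : ℝ) / nr E := by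
      rw [show (-(3 / 4) : ℝ) = 1 / 4 - 1 by norm_num, Real.rpow_sub hE0, Real.rpow_one]
    rw [this]
    ring
  refine hsum.trans ?_
  rw [Finset.sum_product]
  have hfin : ∀ u ∈ U, ∑ p ∈ PE E ×ˢ Fintype.piFinset (fun _ : Fin 3 => GF D.toRD0 (X / nr E)),
      GG D.toRD0 E (X / nr E) (u, p) ≤
        5 ^ E.card * (C₁ * nr E ^ (1 / 4 : ℝ) * (X / nr E) * (1 + Real.log X) ^ 2) := by
    intro u hu
    rw [Finset.sum_product, ← pe_sum, Finset.sum_mul]
    exact Finset.sum_le_sum fun e he => hSW u hu e he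
  refine (Finset.sum_le_sum hfin).trans ?_
  rw [Finset.sum_const, nsmul_eq_mul]
  have hpos : 0 ≤ 5 ^ E.card * (nr E ^ (-(3 / 4) : ℝ) * X) * (1 + Real.log X) ^ 2 := by positivity
  have hre : (U.card : ℝ) * (5 ^ E.card *
      (C₁ * nr E ^ (1 / 4 : ℝ) * (X / nr E) * (1 + Real.log X) ^ 2)) =
      U.card * C₁ * (5 ^ E.card * (nr E ^ (1 / 4 : ℝ) * (X / nr E)) * (1 + Real.log X) ^ 2) := by
    ring
  rw [hre, hpow]
  nlinarith

end H38.MT
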